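import Pool.Agent.Lib.MP_019aa5_co.Geometry2

/-!
The linear system of parameters and the linear relation among the visible monomials.
Vertices 0, 1, 2 are the outer ones A, B, C and 3, 4, 5 the inner ones a, b, c.
-/

set_option autoImplicit false

namespace Pool.Agent.Lib.MP_019aa5_co

open MvPolynomial

variable (k : Type) [Field k]

noncomputable def theta : Fin 3 → MvPolynomial (Fin 6) k :=
  ![X 3 - X 1 - X 2, X 4 - X 0 - X 2, X 5 - X 0 - X 1]

lemma theta_hom (i : Fin 3) : (theta k i).IsHomogeneous 1 := by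
  fin_cases i <;>
  exact ((isHomogeneous_X k _).sub (isHomogeneous_X k _)).sub (isHomogeneous_X k _)

noncomputable def JJ : Ideal (MvPolynomial (Fin 6) k) :=
  Ideal.span ((fun S : Finset (Fin 6) => ∏ i ∈ S, (X i : MvPolynomial (Fin 6) k)) ''
    {S : Finset (Fin 6) | S ∉ Delta}) ⊔ Ideal.span (Set.range (theta k))

noncomputable def xb (i : Fin 6) : MvPolynomial (Fin 6) k ⧸ JJ k := Ideal.Quotient.mk (JJ k) (X i)

lemma nonface (S : Finset (Fin 6)) (hS : S ∉ Delta) : ∏ i ∈ S, xb k i = 0 := by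
  unfold xb
  rw [← map_prod, Ideal.Quotient.eq_zero_iff_mem]
  exact Ideal.mem_sup_left (Ideal.subset_span ⟨S, hS, rfl⟩)

lemma theta_zero (i : Fin 3) : Ideal.Quotient.mk (JJ k) (theta k i) = 0 := by
  rw [Ideal.Quotient.eq_zero_iff_mem]
  exact Ideal.mem_sup_right (Ideal.subset_span ⟨i, rfl⟩)

lemma rel3 : xb k 3 - xb k 1 - xb k 2 = 0 := by simpa [theta, xb] using theta_zero k 0
lemma rel4 : xb k 4 - xb k 0 - xb k 2 = 0 := by simpa [theta, xb] using theta_zero k 1
lemma rel5 : xb k 5 - xb k 0 - xb k 1 = 0 := by simpa [theta, xb] using theta_zero k 2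

lemma n05 : xb k 0 * xb k 5 = 0 := by
  have := nonface k {0, 5} (by decide +kernel)
  rwa [Finset.prod_pair (by decide)] at this
lemma n13 : xb k 1 * xb k 3 = 0 := by
  have := nonface k {1, 3} (by decide +kernel)
  rwa [Finset.prod_pair (by decide)] at this
lemma n24 : xb k 2 * xb k 4 = 0 := by
  have := nonface k {2, 4} (by decide +kernel)
  rwa [Finset.prod_pair (by decide)] at this
lemma n012 : xb k 0 * (xb k 1 * xb k 2) = 0 := by
  have := nonface k {0, 1, 2} (by decide +kernel)
  rwa [Finset.prod_insert (by decide), Finset.prod_pair (by decide)] at this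

lemma relation : xb k 0 * xb k 4 + xb k 1 * xb k 5 + xb k 2 * xb k 3 = 0 := by
  linear_combination n05 k + n13 k + n24 k + (xb k 2 - xb k 1) * rel3 k
    + (xb k 0 - xb k 2) * rel4 k + (xb k 1 - xb k 0) * rel5 k

lemma sq0 : xb k 0 ^ 2 + xb k 0 * xb k 1 = 0 := by
  linear_combination n05 k - xb k 0 * rel5 k
lemma sq1 : xb k 1 ^ 2 + xb k 1 * xb k 2 = 0 := by
  linear_combination n13 k - xb k 1 * rel3 k
lemma sq2 : xb k 2 ^ 2 + xb k 2 * xb k 0 = 0 := by
  linear_combination n24 k - xb k 2 * rel4 k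

lemma cube0 : xb k 0 ^ 3 = 0 := by
  linear_combination (xb k 0 - xb k 1) * sq0 k + xb k 0 * sq1 k - n012 k
lemma cube1 : xb k 1 ^ 3 = 0 := by
  linear_combination (xb k 1 - xb k 2) * sq1 k + xb k 1 * sq2 k - n012 k
lemma cube2 : xb k 2 ^ 3 = 0 := by
  linear_combination (xb k 2 - xb k 0) * sq2 k + xb k 2 * sq0 k - n012 k

lemma integral_of_cube {A : Type} [CommRing A] [Algebra k A] (a : A) (h : a ^ 3 = 0) :
    IsIntegral k a :=
  ⟨Polynomial.X ^ 3, Polynomial.monic_X_pow 3, by simpa using h⟩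

lemma integral_xb (i : Fin 6) : IsIntegral k (xb k i) := by
  have h0 := integral_of_cube k _ (cube0 k)
  have h1 := integral_of_cube k _ (cube1 k)
  have h2 := integral_of_cube k _ (cube2 k)
  have e3 : xb k 3 = xb k 1 + xb k 2 := by linear_combination rel3 k
  have e4 : xb k 4 = xb k 0 + xb k 2 := by linear_combination rel4 k
  have e5 : xb k 5 = xb k 0 + xb k 1 := by linear_combination rel5 k
  fin_cases i
  · exact h0
  · exact h1
  · exact h2
  · exact (show IsIntegral k (xb k 3) from e3 ▸ h1.add h2)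
  · exact (show IsIntegral k (xb k 4) from e4 ▸ h0.add h2)
  · exact (show IsIntegral k (xb k 5) from e5 ▸ h0.add h1)

lemma finite_quot : Module.Finite k (MvPolynomial (Fin 6) k ⧸ JJ k) := by
  have : Algebra.IsIntegral k (MvPolynomial (Fin 6) k ⧸ JJ k) := by
    constructor
    intro r
    obtain ⟨P, rfl⟩ := Ideal.Quotient.mk_surjective r
    induction P using MvPolynomial.induction_on with
    | C a => exact isIntegral_algebraMap (x := a)
    | add p q hp hq => rw [map_add]; exact hp.add hq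
    | mul_X p i hp => rw [map_mul]; exact hp.mul (integral_xb k i)
  exact Algebra.IsIntegral.finite

end Pool.Agent.Lib.MP_019aa5_co
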