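import Pool.Agent.Lib.MP_019aa5_co.Algebra

/-!
The visible monomials of three of the facets sum to zero in the quotient.
-/

set_option autoImplicit false

open Classical

namespace Pool.Agent.Lib.MP_019aa5_co

lemma down_closed_list : ∀ S ∈ faceList, ∀ T ∈ S.powerset, T ∈ faceList := by
  decide +kernel

lemma down_closed : ∀ S ∈ Delta, ∀ T : Finset (Fin 6), T ⊆ S → T ∈ Delta := fun S hS T hT =>
  (mem_Delta T).2 (down_closed_list S ((mem_Delta S).1 hS) T (Finset.mem_powerset.2 hT))

lemma singletons_mem : ∀ i : Fin 6, ({i} : Finset (Fin 6)) ∈ Delta := by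
  decide +kernel

lemma card_le_list : ∀ S ∈ faceList, S.card ≤ 3 := by decide +kernel

lemma card_le : ∀ S ∈ Delta, S.card ≤ 3 := fun S hS => card_le_list S ((mem_Delta S).1 hS)

lemma visible_filter (i j l : Fin 6) (G : Finset (Fin 6))
    (e1 : ({i, j, l} : Finset (Fin 6)).erase i = {j, l})
    (e2 : ({i, j, l} : Finset (Fin 6)).erase j = {i, l})
    (e3 : ({i, j, l} : Finset (Fin 6)).erase l = {i, j})
    (h1 : px j ≠ px l ∨ py j ≠ py l) (h2 : px i ≠ px l ∨ py i ≠ py l)
    (h3 : px i ≠ px j ∨ py i ≠ py j) (hG : G ⊆ {i, j, l})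
    (g1 : valx (lineq j l) * val (lineq j l) i < 0 ↔ i ∈ G)
    (g2 : valx (lineq i l) * val (lineq i l) j < 0 ↔ j ∈ G)
    (g3 : valx (lineq i j) * val (lineq i j) l < 0 ↔ l ∈ G) :
    ({i, j, l} : Finset (Fin 6)).filter (fun v =>
      (affineSpan ℝ (pt '' ((({i, j, l} : Finset (Fin 6)).erase v : Finset (Fin 6)) :
        Set (Fin 6)))).SOppSide x0 (pt v)) = G := by
  ext v
  rw [Finset.mem_filter]
  constructor
  · rintro ⟨hv, hs⟩
    simp only [Finset.mem_insert, Finset.mem_singleton] at hv
    rcases hv with rfl | rfl | rfl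
    · rw [e1, sOppSide_iff _ _ _ h1] at hs; exact g1.1 hs
    · rw [e2, sOppSide_iff _ _ _ h2] at hs; exact g2.1 hs
    · rw [e3, sOppSide_iff _ _ _ h3] at hs; exact g3.1 hs
  · intro hv
    refine ⟨hG hv, ?_⟩
    have hv' := hG hv
    simp only [Finset.mem_insert, Finset.mem_singleton] at hv'
    rcases hv' with rfl | rfl | rfl
    · rw [e1, sOppSide_iff _ _ _ h1]; exact g1.2 hv
    · rw [e2, sOppSide_iff _ _ _ h2]; exact g2.2 hv
    · rw [e3, sOppSide_iff _ _ _ h3]; exact g3.2 hv

lemma not_indep (k : Type) [Field k]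
    (f : {F : Finset (Fin 6) // F ∈ Delta ∧ F.card = 3} → MvPolynomial (Fin 6) k ⧸ JJ k)
    (hf : ∀ F, f F = Ideal.Quotient.mk (JJ k)
      (∏ v ∈ F.1.filter (fun v =>
        (affineSpan ℝ (pt '' ((F.1.erase v : Finset (Fin 6)) : Set (Fin 6)))).SOppSide x0 (pt v)),
        (MvPolynomial.X v : MvPolynomial (Fin 6) k))) :
    ¬ LinearIndependent k f := by
  intro hli
  let F1 : {F : Finset (Fin 6) // F ∈ Delta ∧ F.card = 3} :=
    ⟨{0, 3, 4}, by decide +kernel, by decide⟩
  let F2 : {F : Finset (Fin 6) // F ∈ Delta ∧ F.card = 3} :=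
    ⟨{1, 4, 5}, by decide +kernel, by decide⟩
  let F3 : {F : Finset (Fin 6) // F ∈ Delta ∧ F.card = 3} :=
    ⟨{2, 3, 5}, by decide +kernel, by decide⟩
  have v1 := visible_filter 0 3 4 {0, 4} (by decide) (by decide) (by decide) (by decide)
    (by decide) (by decide) (by decide) (by decide) (by decide) (by decide)
  have v2 := visible_filter 1 4 5 {1, 5} (by decide) (by decide) (by decide) (by decide)
    (by decide) (by decide) (by decide) (by decide) (by decide) (by decide)
  have v3 := visible_filter 2 3 5 {2, 3} (by decide) (by decide) (by decide) (by decide)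
    (by decide) (by decide) (by decide) (by decide) (by decide) (by decide)
  have f1 : f F1 = xb k 0 * xb k 4 := by
    rw [hf]; simp only [F1]; rw [v1, Finset.prod_pair (by decide), map_mul]; rfl
  have f2 : f F2 = xb k 1 * xb k 5 := by
    rw [hf]; simp only [F2]; rw [v2, Finset.prod_pair (by decide), map_mul]; rfl
  have f3 : f F3 = xb k 2 * xb k 3 := by
    rw [hf]; simp only [F3]; rw [v3, Finset.prod_pair (by decide), map_mul]; rfl
  have n12 : F1 ≠ F2 := fun h => absurd (congrArg Subtype.val h) (by simp only [F1, F2]; decide)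
  have n13' : F1 ≠ F3 := fun h => absurd (congrArg Subtype.val h) (by simp only [F1, F3]; decide)
  have n23 : F2 ≠ F3 := fun h => absurd (congrArg Subtype.val h) (by simp only [F2, F3]; decide)
  have hsum : ∑ F ∈ ({F1, F2, F3} : Finset _), (1 : k) • f F = 0 := by
    rw [Finset.sum_insert (by simp [n12, n13']), Finset.sum_pair n23, f1, f2, f3]
    simp only [one_smul]
    linear_combination relation k
  have := linearIndependent_iff'.1 hli {F1, F2, F3} (fun _ => 1) hsum F1 (by simp)
  exact one_ne_zero this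

end Pool.Agent.Lib.MP_019aa5_co
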