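import Mathlib

/-!
The twisted triangulation of a triangle with six vertices and seven triangles, and the
geometric facts about it that the counterexample needs.
-/

set_option autoImplicit false

namespace Pool.Agent.Lib.MP_019aa5_co

abbrev E := EuclideanSpace ℝ (Fin 2)

def px : Fin 6 → ℤ := ![0, 24, 0, 6, 15, 3]
def py : Fin 6 → ℤ := ![0, 0, 24, 3, 6, 15]

noncomputable def pt (i : Fin 6) : E := !₂[(px i : ℝ), (py i : ℝ)]
noncomputable def x0 : E := !₂[(8 : ℝ), (8 : ℝ)]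

@[simp] lemma pt_zero (i : Fin 6) : pt i 0 = (px i : ℝ) := by simp [pt]
@[simp] lemma pt_one (i : Fin 6) : pt i 1 = (py i : ℝ) := by simp [pt]
@[simp] lemma x0_zero : x0 0 = 8 := by simp [x0]
@[simp] lemma x0_one : x0 1 = 8 := by simp [x0]

def faceList : List (Finset (Fin 6)) :=
  [∅, {0}, {1}, {2}, {3}, {4}, {5}, {0, 1}, {0, 2}, {0, 3}, {0, 4}, {1, 2}, {1, 4}, {1, 5},
   {2, 3}, {2, 5}, {3, 4}, {3, 5}, {4, 5}, {0, 1, 4}, {0, 2, 3}, {0, 3, 4}, {1, 2, 5},
   {1, 4, 5}, {2, 3, 5}, {3, 4, 5}]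

def Delta : Finset (Finset (Fin 6)) := faceList.toFinset

lemma mem_Delta (S : Finset (Fin 6)) : S ∈ Delta ↔ S ∈ faceList := List.mem_toFinset

/-- An affine functional with integer coefficients. -/
def phi (q : ℤ × ℤ × ℤ) (y : E) : ℝ := q.1 * y 0 + q.2.1 * y 1 + q.2.2

def val (q : ℤ × ℤ × ℤ) (i : Fin 6) : ℤ := q.1 * px i + q.2.1 * py i + q.2.2

lemma phi_pt (q : ℤ × ℤ × ℤ) (i : Fin 6) : phi q (pt i) = (val q i : ℝ) := by
  simp [phi, val]

lemma phi_sum (q : ℤ × ℤ × ℤ) {ι : Type} (s : Finset ι) (w : ι → ℝ) (z : ι → E) :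
    phi q (∑ i ∈ s, w i • z i) = ∑ i ∈ s, w i * phi q (z i) + q.2.2 * (1 - ∑ i ∈ s, w i) := by
  classical
  induction s using Finset.induction_on with
  | empty => simp [phi]
  | insert a s ha ih =>
    rw [Finset.sum_insert ha, Finset.sum_insert ha, Finset.sum_insert ha]
    simp only [phi, PiLp.add_apply, PiLp.smul_apply, smul_eq_mul] at ih ⊢
    linarith

def seps : List (ℤ × ℤ × ℤ) :=
  [(0, 0, 0), (-5, -7, 120), (-2, 5, 0), (7, 2, -48), (-4, -1, 27), (8, 11, -186), (5, -12, 6),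
   (-10, -3, 75), (1, 0, 0), (3, 4, -69), (-1, -1, 24), (1, -3, 3), (0, 1, 0), (-1, 2, 0),
   (3, 1, -24), (-2, -3, 48), (-3, -1, 24), (2, 3, -48), (1, -2, 0), (2, -5, 0), (5, 7, -120),
   (-7, -2, 48), (4, 1, -27), (-1, 3, -3), (-3, -4, 69)]

lemma sep_exists : ∀ S ∈ faceList, ∀ T ∈ faceList, ∃ q ∈ seps,
    (∀ i : Fin 6, i ∈ S → 0 ≤ val q i) ∧ (∀ j : Fin 6, j ∈ T → val q j ≤ 0) ∧
      (∀ i : Fin 6, i ∈ S → i ∉ T → 0 < val q i) := by
  decide +kernel

lemma mem_hull_iff (S : Finset (Fin 6)) (y : E) :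
    y ∈ convexHull ℝ (pt '' (S : Set (Fin 6))) ↔
      ∃ w : Fin 6 → ℝ, (∀ i, 0 ≤ w i) ∧ (∀ i, i ∉ S → w i = 0) ∧ ∑ i, w i = 1 ∧
        ∑ i, w i • pt i = y := by
  constructor
  · intro hy
    have hconv : Convex ℝ {y : E | ∃ w : Fin 6 → ℝ, (∀ i, 0 ≤ w i) ∧ (∀ i, i ∉ S → w i = 0) ∧
        ∑ i, w i = 1 ∧ ∑ i, w i • pt i = y} := by
      rintro y1 ⟨w1, h1, h2, h3, h4⟩ y2 ⟨w2, k1, k2, k3, k4⟩ a b ha hb hab
      refine ⟨fun i => a * w1 i + b * w2 i, fun i => by have := h1 i; have := k1 i; positivity,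
        fun i hi => by simp [h2 i hi, k2 i hi], ?_, ?_⟩
      · rw [Finset.sum_add_distrib, ← Finset.mul_sum, ← Finset.mul_sum, h3, k3]; linarith
      · rw [← h4, ← k4, Finset.smul_sum, Finset.smul_sum, ← Finset.sum_add_distrib]
        refine Finset.sum_congr rfl fun i _ => ?_
        rw [add_smul, mul_smul, mul_smul]
    refine convexHull_min ?_ hconv hy
    rintro _ ⟨i, hi, rfl⟩
    refine ⟨Pi.single i 1, fun j => ?_, fun j hj => ?_, by simp, ?_⟩
    · by_cases h : j = i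
      · subst h; simp
      · simp [h]
    · have : j ≠ i := fun h => hj (h ▸ hi)
      simp [this]
    · rw [Finset.sum_eq_single i] <;> simp +contextual
  · rintro ⟨w, h1, h2, h3, rfl⟩
    have h3' : ∑ i ∈ S, w i = 1 := by
      rw [← h3]; exact Finset.sum_subset (Finset.subset_univ _) fun i _ hi => h2 i hi
    have h4' : ∑ i, w i • pt i = ∑ i ∈ S, w i • pt i := by
      symm; exact Finset.sum_subset (Finset.subset_univ _) fun i _ hi => by simp [h2 i hi]
    rw [h4']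
    exact (convex_convexHull ℝ _).sum_mem (fun i _ => h1 i) h3'
      (fun i hi => subset_convexHull ℝ _ ⟨i, hi, rfl⟩)

lemma hull_inter (S : Finset (Fin 6)) (hS : S ∈ Delta) (T : Finset (Fin 6)) (hT : T ∈ Delta) :
    convexHull ℝ (pt '' (S : Set (Fin 6))) ∩ convexHull ℝ (pt '' (T : Set (Fin 6))) =
      convexHull ℝ (pt '' ((S ∩ T : Finset (Fin 6)) : Set (Fin 6))) := by
  apply Set.Subset.antisymm
  · rintro y ⟨hyS, hyT⟩
    obtain ⟨q, -, h1, h2, h3⟩ := sep_exists S ((mem_Delta S).1 hS) T ((mem_Delta T).1 hT)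
    obtain ⟨w, w1, w2, w3, w4⟩ := (mem_hull_iff S y).1 hyS
    obtain ⟨u, u1, u2, u3, u4⟩ := (mem_hull_iff T y).1 hyT
    have hw : phi q y = ∑ i, w i * (val q i : ℝ) := by
      rw [← w4, phi_sum, w3]; simp [phi_pt]
    have hu : phi q y = ∑ i, u i * (val q i : ℝ) := by
      rw [← u4, phi_sum, u3]; simp [phi_pt]
    have hle : phi q y ≤ 0 := by
      rw [hu]
      refine Finset.sum_nonpos fun i _ => ?_
      by_cases hi : i ∈ T
      · exact mul_nonpos_of_nonneg_of_nonpos (u1 i) (by exact_mod_cast h2 i hi)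
      · simp [u2 i hi]
    have hnn : ∀ i ∈ (Finset.univ : Finset (Fin 6)), 0 ≤ w i * (val q i : ℝ) := by
      intro i _
      by_cases hi : i ∈ S
      · exact mul_nonneg (w1 i) (by exact_mod_cast h1 i hi)
      · simp [w2 i hi]
    have hz : ∑ i, w i * (val q i : ℝ) = 0 := le_antisymm (hw ▸ hle) (Finset.sum_nonneg hnn)
    rw [Finset.sum_eq_zero_iff_of_nonneg hnn] at hz
    refine (mem_hull_iff _ y).2 ⟨w, w1, fun i hi => ?_, w3, w4⟩
    by_cases hiS : i ∈ S
    · have hiT : i ∉ T := fun h => hi (Finset.mem_inter.2 ⟨hiS, h⟩)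
      have hpos : (0 : ℝ) < val q i := by exact_mod_cast h3 i hiS hiT
      have := hz i (Finset.mem_univ _)
      rcases mul_eq_zero.1 this with h | h
      · exact h
      · exact absurd h hpos.ne'
    · exact w2 i hiS
  · refine Set.subset_inter (convexHull_mono (Set.image_mono ?_)) (convexHull_mono (Set.image_mono ?_))
    · exact Finset.coe_subset.2 Finset.inter_subset_left
    · exact Finset.coe_subset.2 Finset.inter_subset_right

lemma indep_exists : ∀ S ∈ faceList, ∀ v : Fin 6, v ∈ S → ∃ q ∈ (0, 0, 1) :: seps,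
    val q v ≠ 0 ∧ ∀ i : Fin 6, i ∈ S → i ≠ v → val q i = 0 := by
  decide +kernel

lemma affineIndependent_face (S : Finset (Fin 6)) (hS : S ∈ Delta) :
    AffineIndependent ℝ (fun i : (S : Set (Fin 6)) => pt i) := by
  classical
  rw [affineIndependent_iff]
  intro s w hw hsum e he
  obtain ⟨q, -, h1, h2⟩ := indep_exists S ((mem_Delta S).1 hS) e e.2
  have h := phi_sum q s w (fun i : (S : Set (Fin 6)) => pt i)
  rw [hsum, hw] at h
  have h0 : ∑ i ∈ s, w i * phi q (pt i) = 0 := by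
    simp only [phi, PiLp.zero_apply] at h ⊢
    linarith
  rw [Finset.sum_eq_single e] at h0
  · rw [phi_pt] at h0
    rcases mul_eq_zero.1 h0 with h | h
    · exact h
    · exact absurd (by exact_mod_cast h) h1
  · intro i _ hi
    rw [phi_pt, h2 i i.2 (fun h => hi (Subtype.ext h))]; simp
  · intro h; exact absurd he h

end Pool.Agent.Lib.MP_019aa5_co
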