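import Pool.Agent.Lib.MP_019aa5_co.Geometry

/-!
Convexity of the underlying space, genericity of the view point, and the visible sides.
-/

set_option autoImplicit false

namespace Pool.Agent.Lib.MP_019aa5_co

lemma mem_tri (i j k : Fin 6) (l1 l2 l3 : ℝ) (h1 : 0 ≤ l1) (h2 : 0 ≤ l2) (h3 : 0 ≤ l3)
    (hs : l1 + l2 + l3 = 1) (y : E)
    (hy0 : y 0 = l1 * px i + l2 * px j + l3 * px k)
    (hy1 : y 1 = l1 * py i + l2 * py j + l3 * py k) :
    y ∈ convexHull ℝ (pt '' (({i, j, k} : Finset (Fin 6)) : Set (Fin 6))) := by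
  have h := (convex_convexHull ℝ (pt '' (({i, j, k} : Finset (Fin 6)) : Set (Fin 6)))).sum_mem
    (t := (Finset.univ : Finset (Fin 3))) (w := ![l1, l2, l3]) (z := ![pt i, pt j, pt k])
    (by intro a _; fin_cases a <;> simpa) (by simpa [Fin.sum_univ_three] using hs)
    (by
      intro a _
      fin_cases a
      · exact subset_convexHull ℝ _ ⟨i, by simp, rfl⟩
      · exact subset_convexHull ℝ _ ⟨j, by simp, rfl⟩
      · exact subset_convexHull ℝ _ ⟨k, by simp, rfl⟩)
  have hy : y = ∑ a : Fin 3, (![l1, l2, l3] : Fin 3 → ℝ) a • (![pt i, pt j, pt k] : Fin 3 → E) a := by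
    ext a
    fin_cases a
    · simpa [Fin.sum_univ_three] using hy0
    · simpa [Fin.sum_univ_three] using hy1
  rw [hy]; exact h

def bigTri : Set E := {y | 0 ≤ y 0 ∧ 0 ≤ y 1 ∧ y 0 + y 1 ≤ 24}

lemma convex_bigTri : Convex ℝ bigTri := by
  rintro y ⟨a1, a2, a3⟩ z ⟨b1, b2, b3⟩ a b ha hb hab
  simp only [bigTri, Set.mem_ofPred_eq, PiLp.add_apply, PiLp.smul_apply, smul_eq_mul]
  refine ⟨by positivity, by positivity, ?_⟩
  nlinarith

lemma pt_mem_bigTri (i : Fin 6) : pt i ∈ bigTri := by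
  simp only [bigTri, Set.mem_ofPred_eq, pt_zero, pt_one]
  fin_cases i <;> simp [px, py] <;> norm_num

lemma union_eq : (⋃ S ∈ Delta, convexHull ℝ (pt '' (S : Set (Fin 6)))) = bigTri := by
  apply Set.Subset.antisymm
  · refine Set.iUnion₂_subset fun S _ => convexHull_min ?_ convex_bigTri
    rintro _ ⟨i, -, rfl⟩
    exact pt_mem_bigTri i
  · rintro y ⟨a1, a2, a3⟩
    simp only [Set.mem_iUnion]
    set s := y 0 with hs
    set t := y 1 with ht
    have T1 : 0 ≤ -9 * s - 12 * t + 207 → 0 ≤ 12 * s + 3 * t - 81 → 0 ≤ -3 * s + 9 * t - 9 →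
        ∃ S, ∃ _ : S ∈ Delta, y ∈ convexHull ℝ (pt '' (S : Set (Fin 6))) := fun h1 h2 h3 =>
      ⟨{3, 4, 5}, by decide +kernel, mem_tri 3 4 5 ((-9 * s - 12 * t + 207) / 117)
        ((12 * s + 3 * t - 81) / 117) ((-3 * s + 9 * t - 9) / 117) (by positivity) (by positivity)
        (by positivity) (by ring) y (by simp [px]; ring) (by simp [py]; ring)⟩
    have T2 : 0 ≤ 3 * s - 9 * t + 9 → 0 ≤ -6 * s + 15 * t → 0 ≤ 3 * s - 6 * t →
        ∃ S, ∃ _ : S ∈ Delta, y ∈ convexHull ℝ (pt '' (S : Set (Fin 6))) := fun h1 h2 h3 =>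
      ⟨{0, 3, 4}, by decide +kernel, mem_tri 0 3 4 ((3 * s - 9 * t + 9) / 9)
        ((-6 * s + 15 * t) / 9) ((3 * s - 6 * t) / 9) (by positivity) (by positivity)
        (by positivity) (by ring) y (by simp [px]; ring) (by simp [py]; ring)⟩
    have T3 : 0 ≤ -6 * s - 9 * t + 144 → 0 ≤ 6 * s - 15 * t → 0 ≤ 24 * t →
        ∃ S, ∃ _ : S ∈ Delta, y ∈ convexHull ℝ (pt '' (S : Set (Fin 6))) := fun h1 h2 h3 =>
      ⟨{0, 1, 4}, by decide +kernel, mem_tri 0 1 4 ((-6 * s - 9 * t + 144) / 144)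
        ((6 * s - 15 * t) / 144) ((24 * t) / 144) (by positivity) (by positivity)
        (by positivity) (by ring) y (by simp [px]; ring) (by simp [py]; ring)⟩
    have T4 : 0 ≤ 9 * s + 12 * t - 207 → 0 ≤ -15 * s - 21 * t + 360 → 0 ≤ 6 * s + 9 * t - 144 →
        ∃ S, ∃ _ : S ∈ Delta, y ∈ convexHull ℝ (pt '' (S : Set (Fin 6))) := fun h1 h2 h3 =>
      ⟨{1, 4, 5}, by decide +kernel, mem_tri 1 4 5 ((9 * s + 12 * t - 207) / 9)
        ((-15 * s - 21 * t + 360) / 9) ((6 * s + 9 * t - 144) / 9) (by positivity) (by positivity)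
        (by positivity) (by ring) y (by simp [px]; ring) (by simp [py]; ring)⟩
    have T5 : 0 ≤ 9 * s + 3 * t - 72 → 0 ≤ 15 * s + 21 * t - 360 → 0 ≤ -24 * s - 24 * t + 576 →
        ∃ S, ∃ _ : S ∈ Delta, y ∈ convexHull ℝ (pt '' (S : Set (Fin 6))) := fun h1 h2 h3 =>
      ⟨{1, 2, 5}, by decide +kernel, mem_tri 1 2 5 ((9 * s + 3 * t - 72) / 144)
        ((15 * s + 21 * t - 360) / 144) ((-24 * s - 24 * t + 576) / 144) (by positivity)
        (by positivity) (by positivity) (by ring) y (by simp [px]; ring) (by simp [py]; ring)⟩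
    have T6 : 0 ≤ -12 * s - 3 * t + 81 → 0 ≤ -9 * s - 3 * t + 72 → 0 ≤ 21 * s + 6 * t - 144 →
        ∃ S, ∃ _ : S ∈ Delta, y ∈ convexHull ℝ (pt '' (S : Set (Fin 6))) := fun h1 h2 h3 =>
      ⟨{2, 3, 5}, by decide +kernel, mem_tri 2 3 5 ((-12 * s - 3 * t + 81) / 9)
        ((-9 * s - 3 * t + 72) / 9) ((21 * s + 6 * t - 144) / 9) (by positivity) (by positivity)
        (by positivity) (by ring) y (by simp [px]; ring) (by simp [py]; ring)⟩
    have T7 : 0 ≤ -21 * s - 6 * t + 144 → 0 ≤ -3 * s + 6 * t → 0 ≤ 24 * s →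
        ∃ S, ∃ _ : S ∈ Delta, y ∈ convexHull ℝ (pt '' (S : Set (Fin 6))) := fun h1 h2 h3 =>
      ⟨{0, 2, 3}, by decide +kernel, mem_tri 0 2 3 ((-21 * s - 6 * t + 144) / 144)
        ((-3 * s + 6 * t) / 144) ((24 * s) / 144) (by positivity) (by positivity)
        (by positivity) (by ring) y (by simp [px]; ring) (by simp [py]; ring)⟩
    clear_value s t
    rcases le_total 0 (-6 * s + 15 * t) with c1 | c1 <;>
    rcases le_total 0 (3 * s - 6 * t) with c2 | c2 <;>
    rcases le_total 0 (-15 * s - 21 * t + 360) with c3 | c3 <;>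
    rcases le_total 0 (6 * s + 9 * t - 144) with c4 | c4 <;>
    rcases le_total 0 (-9 * s - 3 * t + 72) with c5 | c5 <;>
    rcases le_total 0 (21 * s + 6 * t - 144) with c6 | c6 <;>
    first
    | exact T3 (by linarith) (by linarith) (by linarith)
    | exact T5 (by linarith) (by linarith) (by linarith)
    | exact T7 (by linarith) (by linarith) (by linarith)
    | (rcases le_total 0 (3 * s - 9 * t + 9) with d1 | d1 <;>
       rcases le_total 0 (9 * s + 12 * t - 207) with d2 | d2 <;>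
       rcases le_total 0 (-12 * s - 3 * t + 81) with d3 | d3 <;>
       first
       | exact T1 (by linarith) (by linarith) (by linarith)
       | exact T2 (by linarith) (by linarith) (by linarith)
       | exact T4 (by linarith) (by linarith) (by linarith)
       | exact T6 (by linarith) (by linarith) (by linarith))

lemma convex_union : Convex ℝ (⋃ S ∈ Delta, convexHull ℝ (pt '' (S : Set (Fin 6)))) := by
  rw [union_eq]; exact convex_bigTri

lemma x0_mem_union : x0 ∈ (⋃ S ∈ Delta, convexHull ℝ (pt '' (S : Set (Fin 6)))) := by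
  rw [union_eq]
  simp only [bigTri, Set.mem_ofPred_eq, x0_zero, x0_one]
  norm_num

/-- The functional vanishing on the line through two vertices. -/
def lineq (i j : Fin 6) : ℤ × ℤ × ℤ :=
  (py i - py j, px j - px i, (py j - py i) * px i - (px j - px i) * py i)

lemma phi_lineMap (q : ℤ × ℤ × ℤ) (u v : E) (t : ℝ) :
    phi q (AffineMap.lineMap u v t) = (1 - t) * phi q u + t * phi q v := by
  simp only [phi, AffineMap.lineMap_apply, vsub_eq_sub, vadd_eq_add, PiLp.add_apply,
    PiLp.smul_apply, PiLp.sub_apply, smul_eq_mul]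
  ring

lemma mem_line_iff (i j : Fin 6) (hij : px i ≠ px j ∨ py i ≠ py j) (y : E) :
    y ∈ affineSpan ℝ (pt '' (({i, j} : Finset (Fin 6)) : Set (Fin 6))) ↔ phi (lineq i j) y = 0 := by
  have himg : pt '' (({i, j} : Finset (Fin 6)) : Set (Fin 6)) = {pt i, pt j} := by
    simp [Set.image_insert_eq]
  rw [himg, mem_affineSpan_pair_iff_exists_lineMap_eq]
  constructor
  · rintro ⟨r, rfl⟩
    rw [phi_lineMap, phi_pt, phi_pt]
    have h1 : val (lineq i j) i = 0 := by simp only [val, lineq]; ring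
    have h2 : val (lineq i j) j = 0 := by simp only [val, lineq]; ring
    simp [h1, h2]
  · intro h
    simp only [phi, lineq] at h
    push_cast at h
    set d0 : ℝ := (px j : ℝ) - px i with hd0
    set d1 : ℝ := (py j : ℝ) - py i with hd1
    have hd : d0 ^ 2 + d1 ^ 2 ≠ 0 := by
      intro h0
      have e0 : d0 = 0 := by nlinarith [sq_nonneg d0, sq_nonneg d1]
      have e1 : d1 = 0 := by nlinarith [sq_nonneg d0, sq_nonneg d1]
      rcases hij with h' | h'
      · apply h'
        have : (px i : ℝ) = px j := by linarith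
        exact_mod_cast this
      · apply h'
        have : (py i : ℝ) = py j := by linarith
        exact_mod_cast this
    have hdet : d0 * (y 1 - py i) - d1 * (y 0 - px i) = 0 := by
      rw [hd0, hd1]; linarith
    refine ⟨((y 0 - px i) * d0 + (y 1 - py i) * d1) / (d0 ^ 2 + d1 ^ 2), ?_⟩
    ext a
    fin_cases a
    · simp only [AffineMap.lineMap_apply, vsub_eq_sub, vadd_eq_add, PiLp.add_apply,
        PiLp.smul_apply, PiLp.sub_apply, smul_eq_mul, Fin.zero_eta, pt_zero]
      rw [← hd0]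
      field_simp
      linear_combination d1 * hdet
    · simp only [AffineMap.lineMap_apply, vsub_eq_sub, vadd_eq_add, PiLp.add_apply,
        PiLp.smul_apply, PiLp.sub_apply, smul_eq_mul, Fin.mk_one, pt_one]
      rw [← hd1]
      field_simp
      linear_combination (-d0) * hdet

def valx (q : ℤ × ℤ × ℤ) : ℤ := q.1 * 8 + q.2.1 * 8 + q.2.2

lemma phi_x0 (q : ℤ × ℤ × ℤ) : phi q x0 = (valx q : ℝ) := by simp [phi, valx]

lemma sOppSide_iff (i j v : Fin 6) (hij : px i ≠ px j ∨ py i ≠ py j) :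
    (affineSpan ℝ (pt '' (({i, j} : Finset (Fin 6)) : Set (Fin 6)))).SOppSide x0 (pt v) ↔
      valx (lineq i j) * val (lineq i j) v < 0 := by
  have key : (valx (lineq i j) * val (lineq i j) v < 0) ↔
      phi (lineq i j) x0 * phi (lineq i j) (pt v) < 0 := by
    rw [phi_x0, phi_pt]; exact_mod_cast Iff.rfl
  rw [key]
  generalize pt v = z
  unfold AffineSubspace.SOppSide
  rw [AffineSubspace.wOppSide_iff_exists_wbtw, mem_line_iff i j hij, mem_line_iff i j hij]
  set a := phi (lineq i j) x0 with ha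
  set b := phi (lineq i j) z with hb
  constructor
  · rintro ⟨⟨p, hp, t, ⟨ht0, ht1⟩, rfl⟩, h1, h2⟩
    rw [mem_line_iff i j hij, phi_lineMap, ← ha, ← hb] at hp
    by_contra hcon
    have hpos : 0 < a * b := lt_of_le_of_ne (not_lt.1 hcon) (mul_ne_zero h1 h2).symm
    have e1 : (1 - t) * (a * a) + t * (a * b) = 0 := by linear_combination a * hp
    have e2 : 0 < a * a := mul_self_pos.2 h1
    rcases eq_or_lt_of_le ht0 with h | h
    · subst h; nlinarith
    · have := mul_pos h hpos
      have := mul_nonneg (sub_nonneg.2 ht1) e2.le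
      linarith
  · intro h
    have h1 : a ≠ 0 := by rintro h0; rw [h0] at h; simp at h
    have h2 : b ≠ 0 := by rintro h0; rw [h0] at h; simp at h
    have e2 : 0 < a * a := mul_self_pos.2 h1
    have hden : 0 < a * a - a * b := by linarith
    refine ⟨⟨AffineMap.lineMap x0 z (a * a / (a * a - a * b)), ?_, a * a / (a * a - a * b),
      ⟨by positivity, ?_⟩, rfl⟩, h1, h2⟩
    · rw [mem_line_iff i j hij, phi_lineMap, ← ha, ← hb]
      have hne : a * a - a * b ≠ 0 := hden.ne'
      have : (1 - a * a / (a * a - a * b)) * a + a * a / (a * a - a * b) * b =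
          (a * (a * a - a * b) - a * a * a + a * a * b) / (a * a - a * b) := by
        rw [eq_div_iff hne]
        have := div_mul_cancel₀ (a * a) hne
        linear_combination (b - a) * this
      rw [this]
      ring_nf
    · rw [div_le_one hden]; linarith

lemma edges_ok : ∀ H ∈ faceList, H.card + 1 = 3 → ∃ i : Fin 6, ∃ j : Fin 6, H = {i, j} ∧
    (px i ≠ px j ∨ py i ≠ py j) ∧ valx (lineq i j) ≠ 0 := by
  decide +kernel

lemma x0_generic (H : Finset (Fin 6)) (hH : H ∈ Delta) (hc : H.card + 1 = 3) :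
    x0 ∉ affineSpan ℝ (pt '' (H : Set (Fin 6))) := by
  obtain ⟨i, j, rfl, h1, h2⟩ := edges_ok H ((mem_Delta H).1 hH) hc
  rw [mem_line_iff i j h1, phi_x0]
  exact_mod_cast h2

end Pool.Agent.Lib.MP_019aa5_co
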