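import Mathlib

/-! Face rings of geometric complexes, systems of parameters and visible monomials. -/

set_option autoImplicit false

open Classical MvPolynomial Geometry

namespace Pool.Agent.Lib.MP_019aa5_co.T3

universe u

variable {V : Type} [AddCommGroup V] [Module ℝ V] (k : Type u) [Field k]

/-- The Stanley-Reisner ideal: generated by the squarefree monomials of the nonempty sets of
vertices that are not faces. -/
noncomputable def faceIdeal (K : SimplicialComplex ℝ V) : Ideal (MvPolynomial K.vertices k) :=
  Ideal.span {P | ∃ S : Finset K.vertices, S.Nonempty ∧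
    S.map (Function.Embedding.subtype _) ∉ K.faces ∧ P = ∏ v ∈ S, X v}

/-- The face ring. -/
abbrev FaceRing (K : SimplicialComplex ℝ V) : Type u := MvPolynomial K.vertices k ⧸ faceIdeal k K

/-- The ideal of the face ring generated by the images of the polynomials `θ i`. -/
noncomputable def parIdeal (K : SimplicialComplex ℝ V) {d : ℕ}
    (θ : Fin d → MvPolynomial K.vertices k) : Ideal (FaceRing k K) :=
  Ideal.span (Set.range fun i => Ideal.Quotient.mk (faceIdeal k K) (θ i))

/-- The face ring modulo the images of the polynomials `θ i`. -/
abbrev Red (K : SimplicialComplex ℝ V) {d : ℕ} (θ : Fin d → MvPolynomial K.vertices k) : Type u :=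
  FaceRing k K ⧸ parIdeal k K θ

/-- Linear forms with a finite-dimensional quotient. -/
def IsLsop (K : SimplicialComplex ℝ V) {d : ℕ} (θ : Fin d → MvPolynomial K.vertices k) : Prop :=
  (∀ i, (θ i).IsHomogeneous 1) ∧ Module.Finite k (Red k K θ)

variable [TopologicalSpace V]

/-- The side of the simplex `F` opposite to `v` is visible from `x`: the point `x` and the
interior of `F` lie strictly on opposite sides of the affine span of `F` minus `v`. -/
def Visible (x : V) (F : Finset V) (v : V) : Prop :=
  ∀ y ∈ interior (convexHull ℝ (F : Set V)), (affineSpan ℝ ((F : Set V) \ {v})).SOppSide x y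

/-- The face monomial of the set of vertices of `F` whose opposite side is visible from `x`. -/
noncomputable def visMon (K : SimplicialComplex ℝ V) (x : V) (F : Finset V) :
    MvPolynomial K.vertices k :=
  ∏ v ∈ (F.subtype (· ∈ K.vertices)).filter (fun v => Visible x F v.1), X v

/-- The image of that monomial in the quotient, for a facet `F`. -/
noncomputable def visImg (K : SimplicialComplex ℝ V) (x : V) {d : ℕ}
    (θ : Fin d → MvPolynomial K.vertices k) (F : K.facets) : Red k K θ :=
  Ideal.Quotient.mk (parIdeal k K θ) (Ideal.Quotient.mk (faceIdeal k K) (visMon k K x F))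

/-- These images span the quotient. -/
def VisSpan (K : SimplicialComplex ℝ V) (x : V) {d : ℕ}
    (θ : Fin d → MvPolynomial K.vertices k) : Prop :=
  Submodule.span k (Set.range (visImg k K x θ)) = ⊤

end Pool.Agent.Lib.MP_019aa5_co.T3
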