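import Pool.Agent.Lib.MP_019aa5_co.T3Geo
import Pool.Agent.Lib.MP_019aa5_co.T3Defs

/-! The visible monomials never span; a system of parameters over every field. -/

set_option autoImplicit false

open Finset MvPolynomial

namespace Pool.Agent.Lib.MP_019aa5_co.T3

universe u

variable (k : Type u) [Field k]

open Classical in
theorem visMon_eq (f : Fin 20) :
    visMon k KK (pnt X0) ((fc f).map em) = ∏ i ∈ G f, X (vt i) := by
  rw [visMon, ← prod_map (G f) vt (fun v => (X v : MvPolynomial KK.vertices k))]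
  congr 1
  ext v
  obtain ⟨i, rfl⟩ := vt_surj v
  rw [mem_filter, mem_subtype, mem_map', G, mem_filter]
  refine (and_congr_left' (mem_map' em)).trans (and_congr_right fun hi => ?_)
  rw [← vis hi, Visible, coe_em, coe_erase, Set.image_sdiff pt_inj, Set.image_singleton]
  rfl

theorem map_vt (S : Finset (Fin 9)) :
    (S.map vt).map (Function.Embedding.subtype _) = S.map em := map_map _ _ _

/-- The quotient map. -/
noncomputable def qm (θ : Fin 4 → MvPolynomial KK.vertices k) :
    MvPolynomial KK.vertices k →ₐ[k] Red k KK θ :=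
  (Ideal.Quotient.mkₐ k _).comp (Ideal.Quotient.mkₐ k (faceIdeal k KK))

variable {k}

theorem ker_le {θ : Fin 4 → MvPolynomial KK.vertices k} {I : Ideal (MvPolynomial KK.vertices k)}
    (h : faceIdeal k KK ≤ I) (h' : ∀ i, θ i ∈ I) {P : MvPolynomial KK.vertices k}
    (e : qm k θ P = 0) : P ∈ I := by
  have : parIdeal k KK θ ≤ I.map (Ideal.Quotient.mk _) :=
    Ideal.span_le.2 (Set.range_subset_iff.2 fun i => Ideal.mem_map_of_mem _ (h' i))
  exact (Ideal.mem_quotient_iff_mem h).1 (this (Ideal.Quotient.eq_zero_iff_mem.1 e))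

theorem not_span {θ : Fin 4 → MvPolynomial KK.vertices k} (hθ : ∀ i, (θ i).IsHomogeneous 1) :
    ¬ VisSpan k KK (pnt X0) θ := fun hs => by
  have h1 : ∀ i, ∃ a : Fin 9 → k, ∑ v, a v • X (vt v) = θ i := fun i => by
    refine (Submodule.mem_span_range_iff_exists_fun k).1 ?_
    rw [show (fun v => (X (vt v) : MvPolynomial KK.vertices k)) = X ∘ vt from rfl,
      Function.Surjective.range_comp vt_surj, ← homogeneousSubmodule_one_eq_span_X]
    exact hθ i
  choose a ha using h1
  obtain ⟨c, c1, w, c2⟩ := Fintype.not_linearIndependent_iff.1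
    (fun h : LinearIndependent k fun (v : Fin 5) (i : Fin 4) => a i (v.castLE (by decide)) => by
      simpa using h.fintype_card_le_finrank)
  let d : Fin 9 → k := fun v => if h : v < 5 then c ⟨v, h⟩ else 0
  let ψ : MvPolynomial KK.vertices k →ₐ[k] Polynomial k :=
    aeval fun v => Polynomial.C (d (Function.invFun vt v)) * Polynomial.X
  have p1 : ∀ v, ψ (X (vt v)) = Polynomial.C (d v) * Polynomial.X := fun v => by
    rw [aeval_X, Function.leftInverse_invFun vt.injective]
  have p2 : ∀ S : Finset (Fin 9), ψ (∏ v ∈ S, X (vt v)) =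
      Polynomial.C (∏ v ∈ S, d v) * Polynomial.X ^ S.card := fun S => by
    simp only [map_prod, p1, prod_mul_distrib, prod_const]
  have p3 : ∀ S : Finset (Fin 9), ∀ v ∈ S, ¬ v < 5 → ∏ v ∈ S, d v = 0 := fun S v h n =>
    prod_eq_zero h (dif_neg n)
  have p4 : ∀ P, qm k θ P = 0 → (ψ P).coeff 2 = 0 := fun P e => by
    refine Polynomial.X_pow_dvd_iff.1 (Ideal.mem_span_singleton.1 (ker_le
      (I := (Ideal.span {Polynomial.X ^ 3}).comap ψ) (Ideal.span_le.2 ?_) (fun i => ?_) e)) 2 (by decide)
    · rintro _ ⟨S, s1, s2, rfl⟩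
      obtain ⟨T, rfl⟩ : ∃ T : Finset (Fin 9), S = T.map vt := by
        refine ⟨S.preimage vt vt.injective.injOn, ext fun v => ?_⟩
        obtain ⟨i, rfl⟩ := vt_surj v
        simp
      rw [SetLike.mem_coe, Ideal.mem_comap, Ideal.mem_span_singleton, prod_map, p2]
      rcases le_or_gt 3 T.card with n | n
      · exact (pow_dvd_pow _ n).mul_left _
      by_cases m : ∀ v ∈ T, v < 5
      swap
      · push Not at m
        obtain ⟨v, v1, v2⟩ := m
        simp [p3 T v v1 v2.not_gt]
      obtain ⟨x, y, rfl⟩ : ∃ x y, T = {x, y} := by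
        have := card_pos.2 (map_nonempty.1 s1)
        rcases (by omega : T.card = 1 ∨ T.card = 2) with n | n
        · obtain ⟨x, rfl⟩ := card_eq_one.1 n
          exact ⟨x, x, by simp⟩
        · obtain ⟨x, y, -, rfl⟩ := card_eq_two.1 n
          exact ⟨x, y, rfl⟩
      obtain ⟨f, f1, f2⟩ := five x y (m x (by simp)) (m y (by simp))
      exact (s2 ⟨f, {x, y}, by simp [insert_subset_iff, f1, f2], by simp, map_vt _⟩).elim
    · have := congrFun c1 i
      simp only [Finset.sum_apply, Pi.smul_apply, smul_eq_mul, Pi.zero_apply] at this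
      have e : ∑ v, a i v * d v = 0 := by
        rw [← this]
        refine (Fin.sum_univ_add (a := 5) (b := 4) fun v => a i v * d v).trans ?_
        rw [sum_eq_zero (s := (univ : Finset (Fin 4))) fun j _ => mul_eq_zero_of_right _
          (dif_neg (Nat.le_add_right 5 j).not_gt), add_zero]
        exact sum_congr rfl fun j _ => (mul_comm _ _).trans (congrArg (· * _) (dif_pos j.2))
      rw [Ideal.mem_comap, ← ha, map_sum]
      simp only [map_smul, p1, ← smul_mul_assoc, Polynomial.smul_C, smul_eq_mul, ← sum_mul,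
        ← map_sum, e, map_zero, zero_mul, zero_mem]
  let N := LinearMap.ker (Polynomial.lcoeff k 2 ∘ₗ ψ.toLinearMap)
  have p5 : ⊤ ≤ N.map (qm k θ).toLinearMap := by
    refine hs.ge.trans (Submodule.span_le.2 ?_)
    rintro _ ⟨⟨F, hF⟩, rfl⟩
    obtain ⟨f, rfl⟩ := facet hF
    refine ⟨_, ?_, rfl⟩
    change (ψ (visMon k KK _ _)).coeff 2 = 0
    rw [visMon_eq, p2, Polynomial.coeff_C_mul_X_pow]
    split_ifs with n
    · obtain ⟨v, v1, v2⟩ := G_two f n.symm
      exact p3 _ v v1 v2.not_gt
    · rfl
  obtain ⟨P, P1, P2⟩ := p5 (Submodule.mem_top (x := qm k θ (X (vt (w.castLE (by decide))) ^ 2)))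
  have := p4 (P - X (vt (w.castLE (by decide))) ^ 2) (by rw [map_sub, sub_eq_zero]; exact P2)
  rw [map_sub, Polynomial.coeff_sub, show (ψ P).coeff 2 = 0 from P1, map_pow, p1, mul_pow,
    ← map_pow, Polynomial.coeff_C_mul_X_pow, if_pos rfl, zero_sub, neg_eq_zero] at this
  exact c2 ((dif_pos w.2).symm.trans (pow_eq_zero_iff two_ne_zero |>.1 this))

variable (k)

/-- A system of parameters. -/
noncomputable def th (j : Fin 4) : MvPolynomial KK.vertices k := ∑ v, (g (L v) j : k) • X (vt v)

theorem fin_of {A : Type u} [CommRing A] [Algebra k A] (q : MvPolynomial KK.vertices k →ₐ[k] A)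
    (hs : Function.Surjective q) (hI : ∀ P ∈ faceIdeal k KK, q P = 0) (h : ∀ i, q (th k i) = 0) :
    Module.Finite k A := by
  classical
  have h3 : ∀ v, IsIntegral k (q (X (vt v))) := fun v => by
    obtain ⟨n, hn⟩ : IsNilpotent (q (X (vt v))) := nilpotent_iff_mem_prime.2 fun J hJ => by
      by_contra hv
      let S := univ.filter fun u => q (X (vt u)) ∉ J
      have vS : v ∈ S := mem_filter.2 ⟨mem_univ _, hv⟩
      obtain ⟨f, hf⟩ : ∃ f, S ⊆ fc f := by
        by_contra n
        have := hI _ (Ideal.subset_span ⟨S.map vt, map_nonempty.2 ⟨v, vS⟩, fun ⟨f, T, t, _, e⟩ =>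
          n ⟨f, map_injective em ((map_vt S).symm.trans e) ▸ t⟩, rfl⟩)
        rw [prod_map, map_prod] at this
        obtain ⟨u, u1, u2⟩ := Ideal.IsPrime.prod_mem_iff.1 (this ▸ J.zero_mem)
        exact (mem_filter.1 u1).2 u2
      have e : ∑ u, (dt (C f v) (L u) : k) • q (X (vt u)) = 0 := by
        have : ∑ j : Fin 4, (g (C f v) j : k) • q (th k j) = 0 := by simp [h]
        simp only [th, map_sum, map_smul, smul_sum, smul_smul] at this
        rw [← this, sum_comm]
        simp [dt, sum_smul]
      rw [← add_sum_erase _ _ (mem_univ v), C_dt f v (hf vS) v (hf vS), if_pos rfl, Int.cast_one,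
        one_smul, add_eq_zero_iff_eq_neg] at e
      refine hv (e ▸ J.neg_mem (J.sum_mem fun u hu => ?_))
      by_cases n : u ∈ S
      · simp [C_dt f u (hf n) v (hf vS), (mem_erase.1 hu).1]
      · exact J.smul_of_tower_mem _ (by simpa [S] using n)
    exact IsIntegral.of_pow n.succ_pos (by rw [pow_succ, hn, zero_mul]; exact isIntegral_zero)
  have : Finite KK.vertices := Finite.of_surjective vt vt_surj
  have : Algebra.FiniteType k A := .of_surjective q hs
  have : Algebra.IsIntegral k A := ⟨fun r => by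
    obtain ⟨P, rfl⟩ := hs r
    induction P using MvPolynomial.induction_on with
    | C a => exact q.commutes a ▸ isIntegral_algebraMap
    | add p q hp hq => rw [map_add]; exact hp.add hq
    | mul_X p v hp => obtain ⟨i, rfl⟩ := vt_surj v; rw [map_mul]; exact hp.mul (h3 i)⟩
  exact Algebra.IsIntegral.finite

theorem lsop : IsLsop k KK (th k) := by
  have h := fin_of k (A := Red k KK (th k)) (qm k _)
    (Ideal.Quotient.mk_surjective.comp Ideal.Quotient.mk_surjective)
    (fun _ h => (congrArg (Ideal.Quotient.mk _) (Ideal.Quotient.eq_zero_iff_mem.2 h)).trans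
      (map_zero _))
    fun i => Ideal.Quotient.eq_zero_iff_mem.2 (Ideal.subset_span (Set.mem_range_self i))
  exact ⟨fun _ => (homogeneousSubmodule _ k 1).sum_mem fun _ _ =>
    Submodule.smul_mem _ _ (isHomogeneous_X k _), h⟩

end Pool.Agent.Lib.MP_019aa5_co.T3
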