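import Mathlib

/-!
A triangulation of a convex polytope in three-space with nine vertices and twenty tetrahedra:
tables and the finite checks.
-/

set_option autoImplicit false

namespace Pool.Agent.Lib.MP_019aa5_co.T3

/-- Cutting trees. -/
inductive Tr
  | leaf (f : Fin 20) (c : List (Fin 9 × ℕ × List (ℕ × ℕ)))
  | node (q : List ℤ) (l r : Tr)

def Hl : List (List ℤ) :=
  [[1, 9, 4, 0], [1, -12, -7, 2], [1, -4, -3, 4], [1, 9, -5, -3], [1, -12, 10, 1], [1, -65, -37,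
    3], [1, 53, -9, -32], [1, -21, 14, -2], [1, 3, -2, -2]]

def fcl : List (Finset (Fin 9)) :=
  [{0, 1, 2, 4}, {0, 1, 4, 5}, {1, 2, 3, 6}, {0, 3, 4, 7}, {0, 3, 6, 7}, {0, 1, 2, 8}, {1, 2, 3,
    5}, {1, 2, 4, 5}, {0, 3, 4, 8}, {0, 1, 5, 8}, {1, 3, 5, 6}, {0, 4, 5, 8}, {1, 2, 6, 8}, {2, 3,
    6, 8}, {1, 5, 6, 8}, {3, 4, 7, 8}, {3, 6, 7, 8}, {0, 2, 3, 8}, {4, 5, 7, 8}, {5, 6, 7, 8}]

def Bl : List (List (List ℤ)) :=
  [[[672, 38, -8, -136], [563, -31, -71, -225], [-291, 23, 21, 357], [], [38, -30, 58, 4], [], [],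
    [], []],
   [[1587, 13, -53, -901], [-487, 59, -11, 1305], [], [], [101, -49, 85, -47], [291, -23, -21,
     -357], [], [], []],
   [[], [-183, -30, -69, -36], [2131, -78, 389, -172], [-1782, 132, -402, 276], [], [], [422, -24,
     82, -68], [], []],
   [[-207, 61, 99, -51], [], [], [486, -22, -72, -30], [792, -48, -90, 270], [], [], [-333, 9, 63,
     -189], []],
   [[1355, 547, 826, 716], [], [], [7306, -346, -1048, -50], [], [], [-792, 48, 90, -270], [1713,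
     -249, 132, -396], []],
   [[162, -26, 62, -20], [142, -38, 50, -36], [-90, 34, -54, 60], [], [], [], [], [], [-38, 30,
     -58, -4]],
   [[], [2632, -236, 440, -564], [-980, 148, -244, 524], [26, 64, -114, -28], [], [-422, 24, -82,
     68], [], [], []],
   [[], [4195, 115, -175, -1065], [-1587, -13, 53, 901], [], [-26, -64, 114, 28], [-672, -38, 8,
     136], [], [], []],
   [[39, 3, -3, 27], [], [], [-246, 6, 48, -162], [-72, 0, 18, -54], [], [], [], [333, -9, -63,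
     189]],
   [[369, -115, 197, -185], [-236, 100, -166, 198], [], [], [], [90, -34, 54, -60], [], [], [-101,
     49, -85, 47]],
   [[], [12866, -952, 1882, -1704], [], [-4007, 1022, -1737, 2056], [], [-2131, 78, -389, 172],
     [980, -148, 244, -524], [], []],
   [[1929, 165, -129, 1341], [], [], [], [236, -100, 166, -198], [246, -6, -48, 162], [], [],
     [487, -59, 11, -1305]],
   [[], [-162, -72, -90, -99], [-324, 178, -250, 355], [], [], [], [-162, 26, -62, 20], [], [1782,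
     -132, 402, -276]],
   [[], [], [-227, -83, -130, -108], [162, 72, 90, 99], [], [], [-55, -19, -29, -27], [], [183,
     30, 69, 36]],
   [[], [-2383, 1085, -1790, 2226], [], [], [], [324, -178, 250, -355], [-369, 115, -197, 185],
     [], [4007, -1022, 1737, -2056]],
   [[], [], [], [-96, 48, 72, -48], [48, 16, 24, 24], [], [], [-39, -3, 3, -27], [207, -61, -99,
     51]],
   [[], [], [], [1264, 480, 720, 632], [], [], [-48, -16, -24, -24], [227, 83, 130, 108], [-1355,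
     -547, -826, -716]],
   [[55, 19, 29, 27], [], [72, 0, -18, 54], [-142, 38, -50, 36], [], [], [], [], [357, -57, 39,
     -117]],
   [[], [], [], [], [3856, 80, 120, 1928], [96, -48, -72, 48], [], [-1929, -165, 129, -1341],
     [4001, 133, -177, -635]],
   [[], [], [], [], [], [-1264, -480, -720, -632], [-3856, -80, -120, -1928], [2383, -1085, 1790,
     -2226], [57417, 1645, -950, 4786]]]

def Dl : List ℤ := [982, 1492, 588, 738, 9582, 176, 1256, 1910, 54, 122, 7708, 2898, 1134, 63,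
  1579, 120, 88, 342, 6024, 54680]

def sepl : List (List ℤ) :=
  [[-4007, 1022, -1737, 2056], [-3215, 1351, -2236, 2766], [-2407, -99, 221, 1383], [-2383, 1085,
    -1790, 2226], [-2131, 78, -389, 172], [-1587, -13, 53, 901], [-1355, -547, -826, -716], [-643,
    -55, 43, -447], [-574, -226, -341, -301], [-503, -29, 7, 102], [-487, 59, -11, 1305], [-482,
    -10, -15, -241], [-369, 115, -197, 185], [-367, -131, -197, -187], [-336, -19, 4, 68], [-324,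
    178, -250, 355], [-297, 22, -67, 46], [-291, 23, 21, 357], [-245, 37, -61, 131], [-227, -83,
    -130, -108], [-211, 12, -41, 34], [-207, 61, 99, -51], [-195, -1, 51, 270], [-158, -60, -90,
    -79], [-132, 8, 15, -45], [-118, 50, -83, 99], [-117, -21, -5, -85], [-117, -17, -9, -75],
    [-101, 49, -85, 47], [-94, -34, -53, -45], [-81, 13, -31, 10], [-71, 19, -25, 18], [-61, -10,
    -23, -12], [-55, -19, -29, -27], [-45, 1, 9, -30], [-45, 17, -27, 30], [-41, 1, 8, -27], [-37,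
    1, 7, -21], [-19, 15, -29, -2], [-18, -8, -10, -11], [-16, -6, -9, -8], [-13, -32, 57, 14],
    [-13, -1, 1, -9], [-6, -2, -3, -3], [-4, 0, 1, -3], [-4, 2, 3, -2], [0, 0, 0, 0], [4, -2, -3,
    2], [4, 0, -1, 3], [6, 2, 3, 3], [13, 1, -1, 9], [13, 32, -57, -14], [18, 8, 10, 11], [19,
    -15, 29, 2], [30, -2, -3, 15], [34, 12, 18, 17], [35, 13, 20, 17], [37, -1, -7, 21], [41, -1,
    -8, 27], [45, -17, 27, -30], [55, 19, 29, 27], [61, 10, 23, 12], [71, -19, 25, -18], [77, -25,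
    37, -111], [81, -13, 31, -10], [89, 31, 47, 44], [90, 8, 12, 45], [101, -49, 85, -47], [117,
    21, 5, 85], [118, -50, 83, -99], [128, 2, 3, 64], [132, -8, -15, 45], [158, 60, 90, 79], [191,
    113, 100, 165], [207, -61, -99, 51], [211, -12, 41, -34], [227, 83, 130, 108], [245, -37, 61,
    -131], [291, -23, -21, -357], [297, -22, 67, -46], [324, -178, 250, -355], [336, 19, -4, -68],
    [369, -115, 197, -185], [414, -132, 224, -215], [440, -134, 222, -203], [482, 10, 15, 241],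
    [487, -59, 11, -1305], [643, 55, -43, 447], [1007, -205, 373, -177], [1066, -378, 584, -757],
    [1149, 97, 129, 459], [1355, 547, 826, 716], [1435, -493, 781, -942], [1587, 13, -53, -901],
    [2131, -78, 389, -172], [2383, -1085, 1790, -2226], [3215, -1351, 2236, -2766], [4007, -1022,
    1737, -2056]]

def sepi : List (List ℕ) :=
  [[46, 17, 64, 57, 54, 53, 64, 81, 58, 22, 66, 10, 64, 88, 66, 50, 85, 62, 87, 85],
   [78, 46, 83, 57, 54, 59, 77, 93, 58, 67, 82, 10, 83, 84, 82, 50, 70, 62, 87, 85],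
   [38, 35, 46, 29, 19, 30, 75, 81, 29, 35, 94, 25, 16, 32, 15, 29, 19, 33, 25, 1],
   [36, 36, 61, 46, 71, 34, 61, 81, 37, 34, 61, 36, 65, 60, 65, 21, 49, 44, 45, 55],
   [36, 36, 61, 24, 46, 36, 75, 81, 37, 36, 61, 36, 56, 76, 56, 21, 91, 44, 45, 72],
   [38, 28, 79, 57, 57, 46, 75, 81, 48, 35, 90, 25, 64, 88, 66, 50, 50, 62, 87, 85],
   [38, 28, 20, 48, 48, 30, 46, 51, 48, 12, 18, 25, 16, 32, 0, 48, 48, 32, 25, 87],
   [14, 5, 9, 47, 54, 9, 41, 46, 47, 2, 2, 10, 9, 62, 2, 50, 54, 62, 87, 85],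
   [86, 86, 61, 57, 71, 34, 61, 81, 46, 34, 61, 36, 52, 60, 52, 50, 49, 44, 45, 52],
   [38, 28, 92, 57, 57, 59, 77, 51, 48, 46, 97, 25, 83, 84, 82, 50, 50, 62, 87, 85],
   [38, 28, 4, 43, 32, 30, 77, 51, 43, 12, 46, 25, 16, 32, 0, 43, 32, 43, 25, 1],
   [78, 86, 92, 57, 71, 59, 77, 93, 58, 69, 97, 46, 83, 83, 82, 50, 70, 59, 87, 85],
   [38, 28, 79, 8, 6, 30, 75, 81, 40, 35, 94, 25, 46, 39, 15, 40, 23, 33, 25, 3],
   [38, 28, 61, 8, 6, 30, 75, 81, 29, 35, 94, 35, 52, 46, 73, 29, 19, 33, 35, 73],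
   [38, 28, 89, 13, 6, 30, 77, 51, 43, 12, 97, 25, 80, 39, 46, 43, 23, 43, 25, 3],
   [86, 86, 61, 74, 71, 34, 61, 81, 42, 34, 61, 36, 65, 60, 65, 46, 49, 44, 45, 55],
   [86, 86, 61, 13, 6, 36, 63, 81, 42, 36, 61, 36, 56, 76, 56, 43, 46, 44, 45, 72],
   [38, 28, 61, 57, 57, 31, 61, 81, 48, 35, 90, 35, 52, 60, 68, 50, 49, 46, 68, 68],
   [78, 86, 89, 74, 71, 59, 63, 86, 26, 69, 96, 7, 59, 59, 69, 47, 54, 59, 46, 85],
   [78, 86, 89, 13, 6, 27, 63, 86, 27, 7, 96, 7, 80, 39, 95, 43, 23, 27, 11, 46]]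

def hull : List (List ℤ) :=
  [[119, -19, 13, -39], [243, -11, -36, -15], [563, -31, -71, -225], [571, -83, 44, -132], [658,
    -59, 110, -141], [839, 23, -35, -213], [3653, -173, -524, -25], [4001, 133, -177, -635],
    [6433, -476, 941, -852], [57417, 1645, -950, 4786]]

def Ll : List (List ℤ) :=
  [[1, 1, 1, 0], [1, 0, 1, 0], [0, 1, 1, 0], [1, 1, 0, 1], [0, 1, 0, 1], [1, 0, 0, 0], [0, 1, 0,
    0], [0, 0, 1, 0], [0, 0, 0, 1]]

def Cl : List (List (List ℤ)) :=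
  [[[1, 1, -1, -1], [0, -1, 1, 1], [-1, 0, 1, 0], [], [0, 0, 0, 1], [], [], [], []],
   [[0, 1, 0, -1], [0, -1, 1, 1], [], [], [0, 0, 0, 1], [1, 0, -1, 0], [], [], []],
   [[], [1, 0, 0, -1], [-1, 0, 1, 1], [0, 0, 0, 1], [], [], [1, 1, -1, -2], [], []],
   [[0, 1, 0, -1], [], [], [1, -1, 0, 1], [-1, 1, 0, 0], [], [], [0, -1, 1, 1], []],
   [[1, 0, 0, -1], [], [], [0, 0, 0, 1], [], [], [-1, 1, 0, 0], [-1, 0, 1, 1], []],
   [[1, 1, -1, 0], [0, -1, 1, 0], [-1, 0, 1, 0], [], [], [], [], [], [0, 0, 0, 1]],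
   [[], [0, -1, 1, 1], [0, 1, 0, -1], [0, 0, 0, 1], [], [1, 1, -1, -2], [], [], []],
   [[], [0, -1, 1, 1], [0, 1, 0, -1], [], [0, 0, 0, 1], [1, 1, -1, -1], [], [], []],
   [[0, 0, 1, 0], [], [], [1, 0, -1, 0], [-1, 1, 0, 0], [], [], [], [0, -1, 1, 1]],
   [[0, 1, 0, 0], [0, -1, 1, 0], [], [], [], [1, 0, -1, 0], [], [], [0, 0, 0, 1]],
   [[], [0, 0, 1, 0], [], [0, 0, 0, 1], [], [1, 0, -1, -1], [0, 1, 0, -1], [], []],
   [[0, 0, 1, 0], [], [], [], [0, 1, -1, 0], [1, 0, -1, 0], [], [], [0, -1, 1, 1]],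
   [[], [1, 0, 0, 0], [-1, 0, 1, 0], [], [], [], [1, 1, -1, 0], [], [0, 0, 0, 1]],
   [[], [], [0, 0, 1, 0], [1, 0, 0, 0], [], [], [-1, 1, -1, 0], [], [-1, 0, 0, 1]],
   [[], [0, 0, 1, 0], [], [], [], [1, 0, -1, 0], [0, 1, 0, 0], [], [0, 0, 0, 1]],
   [[], [], [], [1, 0, 0, 0], [-1, 1, 0, 0], [], [], [0, 0, 1, 0], [0, -1, 0, 1]],
   [[], [], [], [1, 0, 0, 0], [], [], [-1, 1, 0, 0], [0, 0, 1, 0], [-1, 0, 0, 1]],
   [[1, -1, 1, 0], [], [-1, 1, 0, 0], [0, 1, -1, 0], [], [], [], [], [0, -1, 1, 1]],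
   [[], [], [], [], [0, 1, 0, 0], [1, 0, 0, 0], [], [0, 0, 1, 0], [0, -1, 0, 1]],
   [[], [], [], [], [], [1, 0, 0, 0], [0, 1, 0, 0], [0, 0, 1, 0], [0, 0, 0, 1]]]

def tree : Tr :=
 (.node [227, 83, 130, 108]
 (.node [41, -1, -8, 27]
 (.node [71, -19, 25, -18]
 (.node [643, 55, -43, 447]
 (.node [19, -15, 29, 2]
 (.node [487, -59, 11, -1305]
 (.leaf 11 [(0, 1, [(2, 3)]), (4, 491, [(0, 88), (1, 2898), (4, 438)]), (5, 1, [(4, 6)]), (8, 1,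
   [(0, 1)])])
 (.node [1587, 13, -53, -901]
 (.node [291, -23, -21, -357]
 (.leaf 1 [(0, 1, [(1, 1)]), (1, 1, [(2, 1)]), (4, 491, [(0, 73), (3, 1492)]), (5, 1, [(0, 1)])])
 (.leaf 0 [(0, 746, [(0, 955), (1, 491)]), (1, 1, [(10, 1)]), (2, 1, [(0, 1)]), (4, 1, [(3,
   2)])]))
 (.node [336, 19, -4, -68]
 (.leaf 0 [(0, 1, [(0, 2)]), (1, 1, [(10, 1)]), (2, 955, [(0, 1492), (1, 491)]), (4, 1, [(3,
   2)])])
 (.leaf 7 [(1, 1, [(13, 5)]), (2, 1, [(1, 1)]), (4, 491, [(0, 146), (3, 1910)]), (5, 1, [(0,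
   2)])]))))
 (.node [45, -17, 27, -30]
 (.node [118, -50, 83, -99]
 (.node [487, -59, 11, -1305]
 (.leaf 11 [(0, 1, [(4, 3)]), (4, 1, [(1, 2)]), (5, 1, [(6, 6)]), (8, 1, [(0, 1)])])
 (.leaf 1 [(0, 65736, [(0, 64372), (2, 4693467), (3, 4759785), (7, 65648)]), (1, 1, [(0, 1)]), (4,
   1449, [(0, 61), (1, 1492)]), (5, 44, [(2, 491), (3, 489)])]))
 (.node [101, -49, 85, -47]
 (.leaf 1 [(0, 32868, [(2, 689886), (3, 1319949), (5, 545699), (7, 32824)]), (1, 61, [(0, 1449),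
   (1, 1492)]), (4, 1, [(0, 1)]), (5, 44, [(2, 491), (3, 489)])])
 (.leaf 9 [(0, 747, [(1, 1463), (2, 9654), (7, 61)]), (1, 1, [(1, 2)]), (5, 1, [(2, 2)]), (8, 1,
   [(0, 1)])])))
 (.leaf 5 [(0, 747, [(0, 63), (3, 1463), (5, 88)]), (1, 1, [(3, 2)]), (2, 1, [(0, 2)]), (8, 1,
   [(1, 2)])])))
 (.leaf 18 [(4, 34293, [(0, 320504), (2, 6461744), (3, 323288)]), (5, 161, [(0, 104), (2, 2008)]),
   (7, 1, [(0, 3)]), (8, 1, [(11, 1)])]))
 (.leaf 17 [(0, 4897, [(0, 21), (1, 399), (2, 1121)]), (2, 59, [(0, 6), (1, 114)]), (3, 1, [(0,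
   2)]), (8, 1, [(3, 3)])]))
 (.node [4, 0, -1, 3]
 (.leaf 17 [(0, 83, [(0, 63), (2, 19)]), (2, 1, [(0, 18)]), (3, 1, [(0, 354), (1, 38)]), (8, 1,
   [(3, 3)])])
 (.node [4, -2, -3, 2]
 (.node [482, 10, 15, 241]
 (.leaf 18 [(4, 1, [(0, 8)]), (5, 1, [(1, 24)]), (7, 13, [(1, 1449), (3, 753)]), (8, 1, [(12,
   1)])])
 (.leaf 19 [(5, 251, [(0, 1112), (1, 54680)]), (6, 1, [(0, 8)]), (7, 415, [(1, 801282), (2,
   1341906), (4, 13883)]), (8, 1, [(14, 1)])]))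
 (.node [158, 60, 90, 79]
 (.node [6, 2, 3, 3]
 (.node [132, -8, -15, 45]
 (.node [207, -61, -99, 51]
 (.node [13, 1, -1, 9]
 (.leaf 8 [(0, 1, [(0, 3)]), (3, 1, [(7, 6)]), (4, 1, [(6, 18)]), (8, 20, [(0, 369), (1, 9)])])
 (.leaf 15 [(3, 1, [(5, 24)]), (4, 1, [(3, 8)]), (7, 1, [(0, 3)]), (8, 1, [(1, 1)])]))
 (.node [37, -1, -7, 21]
 (.leaf 8 [(0, 41, [(0, 60), (1, 3)]), (3, 1, [(7, 6)]), (4, 1, [(6, 18)]), (8, 1, [(0, 9)])])
 (.leaf 3 [(0, 1, [(1, 1)]), (3, 1, [(10, 2)]), (4, 1, [(2, 6)]), (7, 1, [(0, 9)])])))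
 (.leaf 4 [(0, 6, [(0, 11), (1, 1597)]), (3, 1, [(13, 2)]), (6, 1, [(0, 6)]), (7, 1, [(10, 3)])]))
 (.node [1355, 547, 826, 716]
 (.leaf 4 [(0, 1, [(0, 1)]), (3, 1, [(13, 2)]), (6, 11, [(0, 36), (1, 9582)]), (7, 1, [(10, 3)])])
 (.leaf 16 [(3, 1, [(2, 8)]), (6, 1, [(1, 8)]), (7, 1, [(6, 1)]), (8, 1, [(0, 1)])])))
 (.leaf 19 [(5, 1, [(0, 8)]), (6, 139, [(0, 2008), (1, 54680)]), (7, 11, [(0, 9654), (4, 6835)]),
   (8, 1, [(14, 1)])])))))
 (.node [369, -115, 197, -185]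
 (.node [643, 55, -43, 447]
 (.node [1587, 13, -53, -901]
 (.node [45, -17, 27, -30]
 (.node [291, -23, -21, -357]
 (.node [487, -59, 11, -1305]
 (.node [118, -50, 83, -99]
 (.leaf 11 [(0, 1, [(5, 3)]), (4, 1, [(0, 2)]), (5, 1609, [(0, 213), (5, 747), (7, 483)]), (8, 1,
   [(1, 1)])])
 (.leaf 9 [(0, 1, [(6, 1)]), (1, 1, [(0, 2)]), (5, 1, [(3, 2)]), (8, 1449, [(0, 1492), (1,
   61)])]))
 (.node [101, -49, 85, -47]
 (.leaf 1 [(0, 1, [(4, 1)]), (1, 1, [(1, 1)]), (4, 1, [(0, 1)]), (5, 1, [(2, 1)])])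
 (.leaf 9 [(0, 1, [(6, 1)]), (1, 746, [(0, 1449), (1, 61)]), (5, 1, [(3, 2)]), (8, 1, [(0,
   1)])])))
 (.leaf 0 [(0, 746, [(0, 955), (2, 491)]), (1, 1, [(8, 1)]), (2, 1, [(0, 1)]), (4, 489, [(0, 88),
   (1, 982)])]))
 (.node [19, -15, 29, 2]
 (.leaf 0 [(0, 32824, [(0, 466995), (1, 468905), (2, 21604)]), (1, 1, [(8, 1)]), (2, 44, [(0,
   489), (1, 491)]), (4, 1, [(0, 2)])])
 (.leaf 5 [(0, 61, [(1, 502), (4, 88)]), (1, 8113, [(1, 67482), (4, 11952), (5, 976)]), (2, 1,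
   [(1, 2)]), (8, 1, [(0, 2)])])))
 (.node [336, 19, -4, -68]
 (.leaf 0 [(0, 1, [(0, 2)]), (1, 1, [(7, 1)]), (2, 955, [(0, 1492), (1, 491)]), (4, 1687485, [(0,
   257982), (1, 123241), (3, 468905)])])
 (.leaf 7 [(1, 1, [(10, 5)]), (2, 1, [(1, 1)]), (4, 1767, [(1, 251), (3, 955)]), (5, 1, [(0,
   2)])])))
 (.node [482, 10, 15, 241]
 (.leaf 18 [(4, 1, [(0, 8)]), (5, 1609, [(0, 852), (1, 44), (3, 1004)]), (7, 1, [(1, 3)]), (8, 1,
   [(11, 1)])])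
 (.leaf 19 [(5, 3567153, [(0, 69476), (2, 300740), (3, 20204260)]), (6, 1, [(0, 8)]), (7, 739,
   [(0, 1579), (2, 6835)]), (8, 1, [(13, 1)])])))
 (.node [2383, -1085, 1790, -2226]
 (.leaf 19 [(5, 4827, [(0, 44), (2, 27340)]), (6, 1579, [(0, 5912), (1, 54680)]), (7, 1, [(0,
   1)]), (8, 1, [(12, 1)])])
 (.node [13, 32, -57, -14]
 (.node [19, -15, 29, 2]
 (.leaf 0 [(0, 73, [(0, 1910), (1, 982)]), (1, 1, [(7, 1)]), (2, 18323, [(0, 374492), (1, 59902),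
   (3, 35843)]), (4, 1, [(0, 2)])])
 (.node [81, -13, 31, -10]
 (.node [71, -19, 25, -18]
 (.leaf 5 [(0, 1, [(1, 2)]), (1, 1, [(0, 2)]), (2, 251, [(1, 122), (5, 88)]), (8, 1, [(2, 2)])])
 (.leaf 17 [(0, 44, [(0, 161), (1, 171)]), (2, 154, [(0, 13363), (1, 14193), (6, 836)]), (3, 1,
   [(0, 2)]), (8, 1, [(7, 3)])]))
 (.node [55, 19, 29, 27]
 (.leaf 17 [(0, 1, [(0, 1)]), (2, 7, [(0, 166), (6, 38)]), (3, 161, [(0, 88), (1, 342)]), (8, 1,
   [(7, 3)])])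
 (.node [297, -22, 67, -46]
 (.node [18, 8, 10, 11]
 (.leaf 13 [(2, 1, [(8, 1)]), (3, 1, [(0, 9)]), (6, 1, [(2, 1)]), (8, 3, [(0, 14), (1, 1)])])
 (.node [324, -178, 250, -355]
 (.leaf 14 [(1, 1, [(7, 1)]), (5, 1, [(0, 1)]), (6, 1, [(8, 1)]), (8, 189, [(0, 890), (2,
   1579)])])
 (.leaf 12 [(1, 1, [(1, 9)]), (2, 1, [(0, 1)]), (6, 1, [(4, 2)]), (8, 1, [(2, 6)])])))
 (.node [4007, -1022, 1737, -2056]
 (.leaf 14 [(1, 1, [(6, 1)]), (5, 890, [(0, 189), (1, 1579)]), (6, 1, [(7, 1)]), (8, 1, [(0,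
   1)])])
 (.node [61, 10, 23, 12]
 (.leaf 13 [(2, 1, [(9, 1)]), (3, 14, [(0, 81), (2, 9)]), (6, 1, [(3, 1)]), (8, 1, [(0, 3)])])
 (.node [211, -12, 41, -34]
 (.node [2131, -78, 389, -172]
 (.leaf 2 [(1, 1, [(2, 3)]), (2, 1, [(0, 1)]), (3, 1, [(4, 6)]), (6, 1, [(1, 2)])])
 (.leaf 10 [(1, 1, [(20, 2)]), (3, 1, [(3, 1)]), (5, 1, [(0, 1)]), (6, 147, [(0, 314), (1,
   3854)])]))
 (.node [245, -37, 61, -131]
 (.leaf 10 [(1, 1, [(20, 2)]), (3, 1, [(3, 1)]), (5, 157, [(0, 294), (1, 1927)]), (6, 1, [(0,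
   4)])])
 (.leaf 6 [(1, 1, [(16, 4)]), (2, 1, [(0, 4)]), (3, 1, [(8, 2)]), (5, 1, [(1, 2)])])))))))))
 (.node [336, 19, -4, -68]
 (.leaf 0 [(0, 1, [(0, 2)]), (1, 1, [(7, 1)]), (2, 239705, [(0, 374492), (1, 1735194), (3,
   468905)]), (4, 955, [(0, 146), (1, 982)])])
 (.leaf 7 [(1, 1, [(10, 5)]), (2, 251, [(1, 3534), (3, 955)]), (4, 1, [(1, 2)]), (5, 1, [(0,
   2)])]))))))

def g (q : List ℤ) (j : ℕ) : ℤ := q.getD j 0
def H (v : Fin 9) : List ℤ := Hl.getD v []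
def fc (f : Fin 20) : Finset (Fin 9) := fcl.getD f ∅
def B (f : Fin 20) (v : Fin 9) : List ℤ := (Bl.getD f []).getD v []
def D (f : Fin 20) : ℤ := Dl.getD f 0
def sp (f f' : Fin 20) : List ℤ := sepl.getD ((sepi.getD f []).getD f' 0) []
def L (v : Fin 9) : List ℤ := Ll.getD v []
def C (f : Fin 20) (v : Fin 9) : List ℤ := (Cl.getD f []).getD v []
def X0 : List ℤ := [1, -5, 3, -9]
def dt (q h : List ℤ) : ℤ := ∑ j : Fin 4, g q j * g h j
def G (f : Fin 20) : Finset (Fin 9) := (fc f).filter fun v => dt (B f v) X0 < 0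

/-- The check of a cutting tree under a list of inequalities. -/
def Tr.ok : Tr → List (List ℤ) → Bool
  | .leaf f c, cs => decide (∀ v ∈ fc f, ∃ x ∈ c, x.1 = v ∧ 0 < x.2.1 ∧ ∀ j : Fin 4,
      x.2.1 * g (B f v) j = (x.2.2.map fun y => y.2 * g (cs.getD y.1 []) j).sum)
  | .node q l r, cs => l.ok (q :: cs) && r.ok (q.map (- ·) :: cs)

theorem tree_ok : tree.ok hull = true := by decide +kernel
theorem H_zero : ∀ v, g (H v) 0 = 1 := by decide +kernel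
theorem H_inj : ∀ u v, (∀ j : Fin 3, g (H u) (j + 1) = g (H v) (j + 1)) → u = v := by
  decide +kernel
theorem B_H : ∀ f, ∀ j k : Fin 4,
    ∑ v, g (B f v) j * g (H v) k = if j = k then D f else 0 := by decide +kernel
theorem B_dt : ∀ f, ∀ u ∈ fc f, ∀ v, dt (B f v) (H u) = if u = v then D f else 0 := by
  decide +kernel
theorem B_nil : ∀ f, ∀ v ∉ fc f, B f v = [] := by decide +kernel
theorem D_pos : ∀ f, 0 < D f := by decide +kernel
theorem sp_ok : ∀ f f', (∀ v ∈ fc f, 0 ≤ dt (sp f f') (H v) ∧ (v ∉ fc f' → 0 < dt (sp f f') (H v))) ∧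
    ∀ v ∈ fc f', dt (sp f f') (H v) ≤ 0 := by decide +kernel
theorem hull_ok : ∀ q ∈ hull, ∀ v, 0 ≤ dt q (H v) := by decide +kernel
theorem X0_ne : ∀ f, ∀ v ∈ fc f, dt (B f v) X0 ≠ 0 := by decide +kernel
theorem X0_in : ∀ v, 0 ≤ dt (B 19 v) X0 := by decide +kernel
theorem fc_card : ∀ f, (fc f).card = 4 := by decide +kernel
theorem G_two : ∀ f, (G f).card = 2 → ∃ v ∈ G f, 5 ≤ v := by decide +kernel
theorem five : ∀ a b : Fin 9, a < 5 → b < 5 → ∃ f, a ∈ fc f ∧ b ∈ fc f := by decide +kernel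
theorem vert : ∀ v, ∃ f, v ∈ fc f := by decide +kernel
theorem C_dt : ∀ f, ∀ u ∈ fc f, ∀ v ∈ fc f, dt (C f v) (L u) = if u = v then 1 else 0 := by
  decide +kernel

end Pool.Agent.Lib.MP_019aa5_co.T3
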