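import Pool.Agent.Lib.MP_019aa5_co.T3Data

/-! The geometry of the triangulation. -/

set_option autoImplicit false

open Finset Geometry

namespace Pool.Agent.Lib.MP_019aa5_co.T3

abbrev E := EuclideanSpace ℝ (Fin 3)

/-- The point with the given homogeneous coordinates. -/
noncomputable def pnt (h : List ℤ) : E := WithLp.toLp 2 fun i : Fin 3 => (g h (i + 1) : ℝ)

noncomputable def pt (v : Fin 9) : E := pnt (H v)

/-- Homogeneous coordinates. -/
def hm (y : E) : Fin 4 → ℝ := Fin.cons 1 fun i => y i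

/-- The affine function with the given coefficients. -/
noncomputable def ph (q : List ℤ) : E →ᵃ[ℝ] ℝ := AffineMap.const ℝ E (g q 0 : ℝ) +
  (∑ i : Fin 3, (g q (i + 1) : ℝ) • EuclideanSpace.projₗ (𝕜 := ℝ) i).toAffineMap

theorem ph_eq (q : List ℤ) (y : E) : ph q y = ∑ j : Fin 4, g q j * hm y j := by
  rw [Fin.sum_univ_succ]
  simp [ph, hm]

theorem ph_pnt (q : List ℤ) {h : List ℤ} (k : g h 0 = 1) : ph q (pnt h) = dt q h := by
  rw [ph_eq, dt, Fin.sum_univ_succ, Fin.sum_univ_succ (n := 3)]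
  simp [hm, pnt, k]

theorem ph_pt (q : List ℤ) (v : Fin 9) : ph q (pt v) = dt q (H v) := ph_pnt q (H_zero v)

theorem ph_nil (y : E) : ph [] y = 0 := by simp [ph_eq, g]

theorem ph_neg (q : List ℤ) (y : E) : ph (q.map (- ·)) y = - ph q y := by
  have : ∀ j, g (q.map (- ·)) j = - g q j := fun j => List.getD_map (d := 0) q (- ·)
  simp [ph_eq, this]

theorem key (f : Fin 20) (y : E) (k : Fin 4) :
    ∑ v, ph (B f v) y * g (H v) k = D f * hm y k := by
  have h : ∀ j : Fin 4, ∑ v, (g (B f v) j : ℝ) * hm y j * g (H v) k =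
      if j = k then D f * hm y j else 0 := fun j => by
    have := congrArg (fun z : ℤ => (z : ℝ) * hm y j) (B_H f j k)
    simpa [sum_mul, mul_right_comm] using this
  simp only [ph_eq, sum_mul]
  rw [sum_comm]
  simp [h]

theorem Dp (f : Fin 20) : (0 : ℝ) < D f := by exact_mod_cast D_pos f

theorem w_one (f : Fin 20) (y : E) : ∑ v, ph (B f v) y / D f = 1 := by
  have := key f y 0
  simp only [Fin.val_zero, H_zero, Int.cast_one, mul_one, hm, Fin.cons_zero] at this
  rw [← sum_div, this, div_self (Dp f).ne']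

theorem w_pt (f : Fin 20) (y : E) : ∑ v, (ph (B f v) y / D f) • pt v = y := by
  ext i
  have := key f y i.succ
  simp only [Fin.val_succ, hm, Fin.cons_succ] at this
  simp only [WithLp.ofLp_sum, Finset.sum_apply, WithLp.ofLp_smul, Pi.smul_apply, smul_eq_mul, pt,
    pnt, div_mul_eq_mul_div]
  rw [← sum_div, this, mul_div_cancel_left₀ _ (Dp f).ne']

variable {f : Fin 20} {S : Finset (Fin 9)}

theorem ph_B {u : Fin 9} (hu : u ∈ fc f) (v : Fin 9) :
    ph (B f v) (pt u) = if u = v then (D f : ℝ) else 0 := by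
  rw [ph_pt, B_dt f u hu]
  simp

theorem mem_span (h : S ⊆ fc f) {y : E} :
    y ∈ affineSpan ℝ (pt '' S) ↔ ∀ v ∉ S, ph (B f v) y = 0 := by
  refine ⟨fun k v hv => ?_, fun k => ?_⟩
  · refine (AffineSubspace.mem_affineSpan_singleton ℝ ℝ).1
      ((affineSpan_le (Q := (affineSpan ℝ {0}).comap (ph (B f v)))).2 ?_ k)
    rintro _ ⟨u, hu, rfl⟩
    exact (AffineSubspace.mem_affineSpan_singleton ℝ ℝ).2
      ((ph_B (h hu) v).trans (if_neg fun e : u = v => hv (e ▸ hu)))
  · rw [← w_pt f y, ← affineCombination_eq_linear_combination _ _ _ (w_one f y)]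
    exact affineCombination_mem_affineSpan_image (w_one f y) (fun v _ hv => by simp [k v hv]) _

theorem mem_hull (h : S ⊆ fc f) {y : E} : y ∈ convexHull ℝ (pt '' S) ↔
    (∀ v, 0 ≤ ph (B f v) y) ∧ ∀ v ∉ S, ph (B f v) y = 0 := by
  refine ⟨fun k => ⟨fun v => ?_, (mem_span h).1 (convexHull_subset_affineSpan _ k)⟩,
    fun ⟨k1, k2⟩ => ?_⟩
  · refine convexHull_min ?_ ((convex_Ici 0).affine_preimage (ph (B f v))) k
    rintro _ ⟨u, hu, rfl⟩
    rw [Set.mem_preimage, ph_B (h hu)]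
    split_ifs
    exacts [(Dp f).le, le_refl (0 : ℝ)]
  · rw [← w_pt f y, ← sum_subset (subset_univ S) fun v _ hv => by simp [k2 v hv]]
    refine (convex_convexHull ℝ _).sum_mem (fun v _ => div_nonneg (k1 v) (Dp f).le) ?_
      fun v hv => subset_convexHull ℝ _ ⟨v, hv, rfl⟩
    rw [sum_subset (subset_univ S) fun v _ hv => by simp [k2 v hv], w_one]

theorem out {v : Fin 9} (hv : v ∉ fc f) (y : E) : ph (B f v) y = 0 := by
  rw [B_nil f v hv, ph_nil]

theorem inter {f' : Fin 20} {T : Finset (Fin 9)} (h : S ⊆ fc f) (h' : T ⊆ fc f') {y : E}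
    (k : y ∈ convexHull ℝ (pt '' S)) (k' : y ∈ convexHull ℝ (pt '' T)) :
    y ∈ convexHull ℝ (pt '' (S ∩ T : Finset (Fin 9))) := by
  obtain ⟨s1, s2⟩ := sp_ok f f'
  obtain ⟨a1, a2⟩ := (mem_hull h).1 k
  have b : ph (sp f f') y ≤ 0 := by
    refine convexHull_min ?_ ((convex_Iic 0).affine_preimage (ph (sp f f'))) k'
    rintro _ ⟨u, hu, rfl⟩
    rw [Set.mem_preimage, ph_pt]
    exact (Int.cast_nonpos (R := ℝ)).2 (s2 u (h' hu))
  have c : ph (sp f f') y = ∑ v, ph (B f v) y / D f * dt (sp f f') (H v) := by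
    conv_lhs => rw [← w_pt f y, ← affineCombination_eq_linear_combination _ _ _ (w_one f y),
      map_affineCombination _ _ _ (w_one f y), affineCombination_eq_linear_combination _ _ _ (w_one f y)]
    simp [ph_pt]
  have d : ∀ v ∈ univ, 0 ≤ ph (B f v) y / D f * dt (sp f f') (H v) := fun v _ => by
    by_cases n : v ∈ fc f
    · exact mul_nonneg (div_nonneg (a1 v) (Dp f).le) (Int.cast_nonneg (s1 v n).1)
    · simp [out n]
  have e := (sum_eq_zero_iff_of_nonneg d).1 (le_antisymm (c ▸ b) (sum_nonneg d))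
  have k1 : y ∈ convexHull ℝ (pt '' (S ∩ fc f' : Finset (Fin 9))) := by
    refine (mem_hull (inter_subset_left.trans h)).2 ⟨a1, fun v hv => ?_⟩
    by_cases n : v ∈ S
    · have := (s1 v (h n)).2 fun m => hv (mem_inter.2 ⟨n, m⟩)
      simpa [this.ne', (D_pos f).ne'] using e v (mem_univ v)
    · exact a2 v n
  obtain ⟨b1, b2⟩ := (mem_hull inter_subset_right).1 k1
  refine (mem_hull (inter_subset_right.trans h')).2 ⟨b1, fun v hv => ?_⟩
  by_cases n : v ∈ T
  · exact b2 v fun m => hv (mem_inter.2 ⟨(mem_inter.1 m).1, n⟩)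
  · exact ((mem_hull h').1 k').2 v n

theorem indep (h : S ⊆ fc f) : AffineIndependent ℝ fun i : S => pt i := by
  refine (affineIndependent_iff_eq_of_fintype_affineCombination_eq ℝ _).2 fun w w' a a' e =>
    funext fun v => ?_
  have := congrArg (ph (B f v)) e
  rw [map_affineCombination _ _ _ a, map_affineCombination _ _ _ a',
    affineCombination_eq_linear_combination _ _ _ a,
    affineCombination_eq_linear_combination _ _ _ a'] at this
  simpa [fun u : S => ph_B (h u.2), Subtype.val_inj, (D_pos f).ne'] using this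

theorem cover (y : E) (t : Tr) : ∀ cs, t.ok cs = true → (∀ q ∈ cs, 0 ≤ ph q y) →
    ∃ f, ∀ v, 0 ≤ ph (B f v) y := by
  induction t with
  | node q l r il ir =>
    intro cs h k
    rw [Tr.ok, Bool.and_eq_true] at h
    rcases le_total 0 (ph q y) with n | n
    · exact il _ h.1 (List.forall_mem_cons.2 ⟨n, k⟩)
    · exact ir _ h.2 (List.forall_mem_cons.2 ⟨by rwa [ph_neg, neg_nonneg], k⟩)
  | leaf f c =>
    intro cs h k
    refine ⟨f, fun v => ?_⟩
    by_cases n : v ∈ fc f
    swap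
    · exact (out n y).ge
    obtain ⟨⟨_, N, m⟩, -, rfl, h1, h2⟩ := of_decide_eq_true h v n
    have h3 : ∀ m : List (ℕ × ℕ), 0 ≤ ∑ j : Fin 4,
        ((m.map fun y => y.2 * g (cs.getD y.1 []) j).sum : ℤ) * hm y j := fun m => by
      induction m with
      | nil => simp
      | cons a m ih =>
        have : 0 ≤ ph (cs.getD a.1 []) y := by
          rcases lt_or_ge a.1 cs.length with u | u
          · exact k _ (List.getD_eq_getElem _ _ u ▸ List.getElem_mem u)
          · rw [List.getD_eq_default _ _ u, ph_nil]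
        simp only [List.map_cons, List.sum_cons, Int.cast_add, add_mul, sum_add_distrib,
          Int.cast_mul, mul_assoc, ← mul_sum, ← ph_eq]
        positivity
    have h4 := h3 m
    simp only [← h2, Int.cast_mul, mul_assoc, ← mul_sum, ← ph_eq] at h4
    exact nonneg_of_mul_nonneg_right h4 (by exact_mod_cast h1) 

theorem side {s : AffineSubspace ℝ E} {φ : E →ᵃ[ℝ] ℝ} (h : ∀ y, y ∈ s ↔ φ y = 0) {a b : E}
    (hb : 0 < φ b) : s.SOppSide a b ↔ φ a < 0 := by
  rw [AffineSubspace.SOppSide, AffineSubspace.wOppSide_iff_exists_wbtw, h, h]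
  refine ⟨fun ⟨⟨p, hp, t, ⟨t0, t1⟩, e⟩, h1, _⟩ => ?_, fun k => ⟨⟨AffineMap.lineMap a b
    (φ a / (φ a - φ b)), ?_, _, ⟨div_nonneg_of_nonpos k.le (by linarith), ?_⟩, rfl⟩, k.ne, hb.ne'⟩⟩
  · rw [← e, h, AffineMap.apply_lineMap, AffineMap.lineMap_apply_ring] at hp
    by_contra k
    have k' : 0 < φ a := lt_of_le_of_ne (not_lt.1 k) (Ne.symm h1)
    nlinarith [mul_nonneg t0 hb.le, mul_nonneg (sub_nonneg.2 t1) k'.le]
  · have : φ a - φ b ≠ 0 := by linarith
    rw [h, AffineMap.apply_lineMap, AffineMap.lineMap_apply_ring]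
    field_simp
    ring
  · rw [div_le_one_of_neg (by linarith)]
    linarith

theorem int_pos {v : Fin 9} (hv : v ∈ fc f) {y : E}
    (h : y ∈ interior (convexHull ℝ (pt '' fc f))) : 0 < ph (B f v) y := by
  have o : IsOpenMap (ph (B f v)) := AffineMap.isOpenMap _
    (AffineMap.continuous_of_finiteDimensional _) (by
      obtain ⟨u, hu, n⟩ := exists_mem_ne (s := fc f) (by rw [fc_card]; decide) v
      refine fun r => ⟨AffineMap.lineMap (pt u) (pt v) (r / D f), ?_⟩
      rw [AffineMap.apply_lineMap, ph_B hu, ph_B hv, if_neg n, if_pos rfl,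
        AffineMap.lineMap_apply_ring, div_mul_cancel₀ _ (Dp f).ne', mul_zero, zero_add])
  have := interior_mono (t := Set.Ici 0) (by
    rintro _ ⟨z, hz, rfl⟩
    exact ((mem_hull Subset.rfl).1 hz).1 v) (o.image_interior_subset _ ⟨y, h, rfl⟩)
  rwa [interior_Ici] at this

theorem vis {v : Fin 9} (hv : v ∈ fc f) : (∀ y ∈ interior (convexHull ℝ (pt '' fc f)),
    (affineSpan ℝ (pt '' (fc f).erase v)).SOppSide (pnt X0) y) ↔ dt (B f v) X0 < 0 := by
  have h : ∀ y, y ∈ affineSpan ℝ (pt '' (fc f).erase v) ↔ ph (B f v) y = 0 := fun y =>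
    (mem_span (erase_subset _ _)).trans ⟨fun k => k v (notMem_erase _ _), fun k u hu => by
      rcases eq_or_ne u v with rfl | n
      · exact k
      · exact out (fun m => hu (mem_erase.2 ⟨n, m⟩)) y⟩
  obtain ⟨y, hy⟩ := interior_convexHull_nonempty_iff_affineSpan_eq_top.2
    (eq_top_iff.2 fun y _ => (mem_span (f := f) Subset.rfl).2 fun v hv => out hv y)
  rw [← Int.cast_lt_zero (R := ℝ), ← ph_pnt _ rfl]
  exact ⟨fun k => (side h (int_pos hv hy)).1 (k y hy), fun k z hz => (side h (int_pos hv hz)).2 k⟩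

theorem pt_inj : Function.Injective pt := fun u v h => H_inj u v fun j => by
  simpa [pt, pnt] using congrArg (· j) h

/-- The vertices as an embedding. -/
noncomputable def em : Fin 9 ↪ E := ⟨pt, pt_inj⟩

theorem coe_em (S : Finset (Fin 9)) : ((S.map em : Finset E) : Set E) = pt '' S :=
  coe_map _ _

/-- The triangulation. -/
noncomputable def KK : SimplicialComplex ℝ E where
  faces := {s | ∃ f, ∃ S ⊆ fc f, S.Nonempty ∧ s = S.map em}
  isRelLowerSet_faces := by
    rintro _ ⟨f, S, hS, h, rfl⟩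
    refine ⟨h.map, fun t ht h' => ?_⟩
    obtain ⟨T, hT, rfl⟩ := subset_map_iff.1 ht
    exact ⟨f, T, hT.trans hS, map_nonempty.1 h', rfl⟩
  indep := by
    rintro _ ⟨f, S, hS, -, rfl⟩
    exact (indep hS).range.mono (t := Set.range _) (fun x hx => by
      obtain ⟨i, hi, rfl⟩ := mem_map.1 hx
      exact ⟨⟨i, hi⟩, rfl⟩)
  inter_subset_convexHull := by
    rintro _ _ ⟨f, S, hS, -, rfl⟩ ⟨f', T, hT, -, rfl⟩ y ⟨h, h'⟩
    rw [coe_em] at h h'
    rw [coe_em, coe_em, ← Set.image_inter pt_inj, ← coe_inter]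
    exact inter hS hT h h'

theorem fc_face (f : Fin 20) : (fc f).map em ∈ KK.faces :=
  ⟨f, _, Subset.rfl, card_pos.1 (by rw [fc_card]; decide), rfl⟩

theorem facet {F : Finset E} (h : F ∈ KK.facets) : ∃ f, F = (fc f).map em := by
  obtain ⟨⟨f, S, hS, -, rfl⟩, k⟩ := h
  exact ⟨f, k (fc_face f) (map_subset_map.2 hS)⟩

theorem mem_space {y : E} (h : ∀ v, 0 ≤ ph (B f v) y) : y ∈ KK.space :=
  KK.convexHull_subset_space (fc_face f)
    (coe_em _ ▸ (mem_hull Subset.rfl).2 ⟨h, fun _ hv => out hv y⟩)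

theorem convex : Convex ℝ KK.space := by
  have c : Convex ℝ (⋂ q ∈ hull, ph q ⁻¹' Set.Ici 0) :=
    convex_iInter₂ fun q _ => (convex_Ici 0).affine_preimage _
  refine (Set.Subset.antisymm (fun y h => ?_) fun y h => ?_ : _ = KK.space) ▸ c
  · obtain ⟨f, k⟩ := cover y _ _ tree_ok (Set.mem_iInter₂.1 h)
    exact mem_space k
  · obtain ⟨_, ⟨f, S, -, -, rfl⟩, k⟩ := SimplicialComplex.mem_space_iff.1 h
    refine convexHull_min ?_ c (coe_em S ▸ k)
    rintro _ ⟨u, -, rfl⟩
    exact Set.mem_iInter₂.2 fun q hq => (ph_pt q u).ge.trans' (Int.cast_nonneg (hull_ok q hq u))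

theorem x_mem : pnt X0 ∈ KK.space :=
  mem_space (f := 19) fun v => (ph_pnt _ rfl).ge.trans' (Int.cast_nonneg (X0_in v))

theorem generic : ∀ T ∈ KK.faces, T.card = 3 → pnt X0 ∉ affineSpan ℝ (T : Set E) := by
  rintro _ ⟨f, S, hS, -, rfl⟩ h k
  obtain ⟨v, v1, v2⟩ := exists_mem_notMem_of_card_lt_card (s := S) (t := fc f)
    (by rw [card_map] at h; rw [h, fc_card]; decide)
  have := (mem_span hS).1 (coe_em S ▸ k) v v2
  rw [ph_pnt _ rfl] at this
  exact X0_ne f v v1 (Int.cast_eq_zero.1 this)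

/-- The vertices as elements of the vertex set. -/
noncomputable def vt : Fin 9 ↪ KK.vertices :=
  ⟨fun i => ⟨pt i, (vert i).imp fun _ h => ⟨{i}, by simpa using h, by simp, by simp [em]⟩⟩,
    fun _ _ h => pt_inj (congrArg Subtype.val h)⟩

theorem vt_surj (v : KK.vertices) : ∃ i, vt i = v := by
  obtain ⟨v, f, S, -, -, h⟩ := v
  obtain ⟨i, -, hi⟩ := mem_map.1 (h ▸ mem_singleton_self v)
  exact ⟨i, Subtype.ext hi⟩

end Pool.Agent.Lib.MP_019aa5_co.T3
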